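import Pool.Agent.H322R2.Comp

set_option autoImplicit false

/-!
The characteristic polynomial of `σ + c y`, where `y` is a root of the monic polynomial `F` and
`σ ^ n = f(y)`.
-/

open Polynomial Finset

namespace Pool.Agent.K1H93.TG

open Pool.Agent.H322R2

section

variable {R : Type*} [CommRing R]

/-- multiplication by `σ + c y` in the basis `σ ^ j y ^ i` -/
noncomputable def mm (F : R[X]) (D : ℕ) (f : R[X]) (n : ℕ) (c : R) :
    Matrix (Fin n × Fin D) (Fin n × Fin D) R :=
  Matrix.of fun p q =>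
    (if p.1 = q.1 then c * H322R2.comp F D p.2 q.2 else 0) +
    (if (p.1 : ℕ) + 1 < n then
      (if (q.1 : ℕ) = p.1 + 1 then (1 : Matrix (Fin D) (Fin D) R) p.2 q.2 else 0)
      else (if (q.1 : ℕ) = 0 then aeval (H322R2.comp F D) f p.2 q.2 else 0))

lemma mm_mulVec {S : Type*} [CommRing S] (φ : R →+* S) (y σ : S) (F : R[X]) (D : ℕ)
    (hm : F.Monic) (hD : F.natDegree = D) (hy : eval₂ φ y F = 0) (f : R[X]) (n : ℕ) (c : R)
    (hσ : σ ^ n = eval₂ φ y f) :
    ((mm F D f n c).map φ).mulVec (fun p : Fin n × Fin D => σ ^ (p.1 : ℕ) * y ^ (p.2 : ℕ))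
      = (σ + φ c * y) • (fun p : Fin n × Fin D => σ ^ (p.1 : ℕ) * y ^ (p.2 : ℕ)) := by
  funext p
  obtain ⟨j, i⟩ := p
  have h1 : ∑ i' : Fin D, φ (H322R2.comp F D i i') * y ^ (i' : ℕ) = y * y ^ (i : ℕ) := by
    have := congrFun (comp_mulVec φ y F D hm hD hy) i
    simpa [Matrix.mulVec, dotProduct] using this
  have h2 : ∑ i' : Fin D, φ (aeval (H322R2.comp F D) f i i') * y ^ (i' : ℕ) =
      eval₂ φ y f * y ^ (i : ℕ) := by
    have := congrFun (aeval_comp_mulVec φ y F D hm hD hy f) i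
    simpa [Matrix.mulVec, dotProduct] using this
  simp only [Matrix.mulVec, dotProduct, Matrix.map_apply, mm, Matrix.of_apply, Pi.smul_apply,
    smul_eq_mul, map_add, add_mul, Finset.sum_add_distrib]
  have e1 : ∑ q : Fin n × Fin D, φ (if j = q.1 then c * H322R2.comp F D i q.2 else 0) *
      (σ ^ (q.1 : ℕ) * y ^ (q.2 : ℕ)) = φ c * y * (σ ^ (j : ℕ) * y ^ (i : ℕ)) := by
    rw [Fintype.sum_prod_type, Finset.sum_eq_single j]
    · simp only [if_true]
      have : ∀ i' : Fin D, φ (c * H322R2.comp F D i i') * (σ ^ (j : ℕ) * y ^ (i' : ℕ)) =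
          φ c * σ ^ (j : ℕ) * (φ (H322R2.comp F D i i') * y ^ (i' : ℕ)) := by
        intro i'; rw [map_mul]; ring
      rw [Finset.sum_congr rfl (fun i' _ => this i'), ← Finset.mul_sum, h1]
      ring
    · intro j' _ hj'
      apply Finset.sum_eq_zero
      intro i' _
      rw [if_neg (Ne.symm hj'), map_zero, zero_mul]
    · intro h; exact absurd (Finset.mem_univ _) h
  rw [e1, add_comm]
  congr 1
  by_cases hj : (j : ℕ) + 1 < n
  · simp only [hj, if_true]
    rw [Fintype.sum_prod_type, Finset.sum_eq_single (⟨(j : ℕ) + 1, hj⟩ : Fin n)]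
    · simp only [if_true]
      rw [Finset.sum_eq_single i]
      · rw [Matrix.one_apply_eq, map_one, one_mul, pow_succ']
        ring
      · intro i' _ hi'
        rw [Matrix.one_apply_ne (Ne.symm hi'), map_zero, zero_mul]
      · intro h; exact absurd (Finset.mem_univ _) h
    · intro j' _ hj'
      apply Finset.sum_eq_zero
      intro i' _
      rw [if_neg, map_zero, zero_mul]
      intro h; exact hj' (Fin.ext h)
    · intro h; exact absurd (Finset.mem_univ _) h
  · simp only [hj, if_false]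
    have hjn : (j : ℕ) + 1 = n := by have := j.2; omega
    have hn : 0 < n := by omega
    rw [Fintype.sum_prod_type, Finset.sum_eq_single (⟨0, hn⟩ : Fin n)]
    · simp only [if_true, pow_zero, one_mul]
      rw [h2, ← hσ]
      have : σ ^ n = σ * σ ^ (j : ℕ) := by rw [← pow_succ', hjn]
      rw [this]; ring
    · intro j' _ hj'
      apply Finset.sum_eq_zero
      intro i' _
      rw [if_neg, map_zero, zero_mul]
      intro h; exact hj' (Fin.ext h)
    · intro h; exact absurd (Finset.mem_univ _) h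

/-- the polynomial of `σ + c y` -/
noncomputable def QQ (F : R[X]) (D : ℕ) (f : R[X]) (n : ℕ) (c : R) : R[X] := (mm F D f n c).charpoly

lemma QQ_monic (F : R[X]) (D : ℕ) (f : R[X]) (n : ℕ) (c : R) : (QQ F D f n c).Monic :=
  Matrix.charpoly_monic _

lemma QQ_natDegree [Nontrivial R] (F : R[X]) (D : ℕ) (f : R[X]) (n : ℕ) (c : R) :
    (QQ F D f n c).natDegree = n * D := by
  rw [QQ, Matrix.charpoly_natDegree_eq_dim, Fintype.card_prod, Fintype.card_fin, Fintype.card_fin]

lemma QQ_root {S : Type*} [CommRing S] (φ : R →+* S) (y σ : S) (F : R[X]) (D : ℕ)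
    (hm : F.Monic) (hD : F.natDegree = D) (hy : eval₂ φ y F = 0) (f : R[X]) (n : ℕ) (c : R)
    (hσ : σ ^ n = eval₂ φ y f) (hn : 1 ≤ n) (hD1 : 1 ≤ D) :
    eval₂ φ (σ + φ c * y) (QQ F D f n c) = 0 := by
  rw [QQ, ← eval_map, ← Matrix.charpoly_map, Matrix.eval_charpoly]
  obtain ⟨w, hw⟩ : ∃ w : Fin n × Fin D → S, w = fun p => σ ^ (p.1 : ℕ) * y ^ (p.2 : ℕ) := ⟨_, rfl⟩
  have h1 := mm_mulVec φ y σ F D hm hD hy f n c hσ
  rw [← hw] at h1
  obtain ⟨A, hA⟩ : ∃ A, A = Matrix.scalar (Fin n × Fin D) (σ + φ c * y) - (mm F D f n c).map φ :=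
    ⟨_, rfl⟩
  rw [← hA]
  have h2 : A.mulVec w = 0 := by
    rw [hA, Matrix.sub_mulVec, h1]
    funext p
    simp [Matrix.scalar_apply]
  have h3 : A.det • w = 0 := by
    have h4 : (A.adjugate * A).mulVec w = A.det • w := by
      rw [Matrix.adjugate_mul, Matrix.smul_mulVec, Matrix.one_mulVec]
    rw [← h4, ← Matrix.mulVec_mulVec, h2, Matrix.mulVec_zero]
  have h5 := congrFun h3 (⟨0, hn⟩, ⟨0, hD1⟩)
  rw [hw] at h5
  simpa using h5

variable (N : RingSeminorm R) (h1 : N 1 ≤ 1)

include h1 in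
lemma mm_entry_le (F : R[X]) (D : ℕ) (f : R[X]) (n : ℕ) (c : R) (K : ℕ) (hf : f.natDegree ≤ K)
    (p q : Fin n × Fin D) : N (mm F D f n c p q) ≤
      N c * (1 + pn N F) + (1 + pn N f * (1 + pn N F) ^ K) := by
  have hF0 : 0 ≤ pn N F := apply_nonneg _ _
  have hf0 : 0 ≤ pn N f := apply_nonneg _ _
  have hc0 : 0 ≤ N c := apply_nonneg _ _
  have hpow : 0 ≤ pn N f * (1 + pn N F) ^ K := by positivity
  rw [mm, Matrix.of_apply]
  refine (map_add_le_add N _ _).trans (add_le_add ?_ ?_)
  · by_cases h : p.1 = q.1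
    · rw [if_pos h]
      refine (map_mul_le_mul N _ _).trans (mul_le_mul_of_nonneg_left ?_ hc0)
      exact (Finset.single_le_sum (f := fun j => N (H322R2.comp F D p.2 j)) (fun _ _ => apply_nonneg N _)
        (Finset.mem_univ q.2)).trans (comp_row_le N h1 F D p.2)
    · rw [if_neg h, map_zero]; positivity
  · by_cases h : (p.1 : ℕ) + 1 < n
    · rw [if_pos h]
      by_cases h2 : (q.1 : ℕ) = p.1 + 1
      · rw [if_pos h2]
        by_cases h3 : p.2 = q.2
        · rw [h3, Matrix.one_apply_eq]; linarith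
        · rw [Matrix.one_apply_ne h3, map_zero]; linarith
      · rw [if_neg h2, map_zero]; linarith
    · rw [if_neg h]
      by_cases h2 : (q.1 : ℕ) = 0
      · rw [if_pos h2]
        have := aeval_comp_entry_le N h1 F D f K hf p.2 q.2
        linarith
      · rw [if_neg h2, map_zero]; linarith

include h1 in
lemma pn_QQ_le (F : R[X]) (D : ℕ) (f : R[X]) (n : ℕ) (c : R) (K : ℕ) (hf : f.natDegree ≤ K) :
    pn N (QQ F D f n c) ≤ (n * D).factorial *
      (1 + (N c * (1 + pn N F) + (1 + pn N f * (1 + pn N F) ^ K))) ^ (n * D) := by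
  have hp1 : pn N (1 : R[X]) ≤ 1 := by rw [pn_one]; exact h1
  have hdet := det_le (pn N) hp1 (Matrix.charmatrix (mm F D f n c))
    (1 + (N c * (1 + pn N F) + (1 + pn N f * (1 + pn N F) ^ K))) (by
      intro p q
      rw [Matrix.charmatrix_apply]
      refine (map_sub_le_add (pn N) _ _).trans (add_le_add ?_ ?_)
      · by_cases h : p = q
        · rw [h, Matrix.diagonal_apply_eq, pn_X]; exact h1
        · rw [Matrix.diagonal_apply_ne _ h, map_zero]; norm_num
      · rw [pn_C]
        exact mm_entry_le N h1 F D f n c K hf p q)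
  rw [Fintype.card_prod, Fintype.card_fin, Fintype.card_fin] at hdet
  exact hdet

end

section

/-- all coefficients have degree at most `k` -/
def ID (k : ℕ) (p : ℤ[X][X]) : Prop := ∀ j, (p.coeff j).natDegree ≤ k

lemma ID.mono {k l : ℕ} {p : ℤ[X][X]} (h : ID k p) (hkl : k ≤ l) : ID l p :=
  fun j => (h j).trans hkl

lemma ID_zero (k : ℕ) : ID k 0 := fun j => by simp

lemma ID.neg {k : ℕ} {p : ℤ[X][X]} (h : ID k p) : ID k (-p) := by
  intro j; rw [coeff_neg, natDegree_neg]; exact h j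

lemma ID.add {k : ℕ} {p q : ℤ[X][X]} (hp : ID k p) (hq : ID k q) : ID k (p + q) := by
  intro j
  rw [coeff_add]
  exact (natDegree_add_le _ _).trans (max_le (hp j) (hq j))

lemma ID.sub {k : ℕ} {p q : ℤ[X][X]} (hp : ID k p) (hq : ID k q) : ID k (p - q) := by
  rw [sub_eq_add_neg]; exact hp.add hq.neg

lemma ID.mul {k l : ℕ} {p q : ℤ[X][X]} (hp : ID k p) (hq : ID l q) : ID (k + l) (p * q) := by
  intro j
  rw [coeff_mul]
  apply natDegree_sum_le_of_forall_le
  intro x _
  exact natDegree_mul_le.trans (Nat.add_le_add (hp _) (hq _))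

lemma ID_sum {ι : Type*} (s : Finset ι) (f : ι → ℤ[X][X]) (k : ℕ) (h : ∀ i ∈ s, ID k (f i)) :
    ID k (∑ i ∈ s, f i) := by
  intro j
  rw [finsetSum_coeff]
  exact natDegree_sum_le_of_forall_le _ _ (fun i hi => h i hi j)

lemma ID_prod {ι : Type*} (s : Finset ι) (f : ι → ℤ[X][X]) (k : ℕ) (h : ∀ i ∈ s, ID k (f i)) :
    ID (s.card * k) (∏ i ∈ s, f i) := by
  classical
  induction s using Finset.induction_on with
  | empty =>
    intro j
    rw [Finset.prod_empty, coeff_one]
    split_ifs <;> simp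
  | insert a s ha ih =>
    rw [Finset.prod_insert ha, Finset.card_insert_of_notMem ha]
    have h1 := (h a (Finset.mem_insert_self _ _)).mul
      (ih (fun i hi => h i (Finset.mem_insert_of_mem hi)))
    refine h1.mono (le_of_eq ?_)
    ring

lemma ID_C {k : ℕ} {a : ℤ[X]} (h : a.natDegree ≤ k) : ID k (C a) := by
  intro j
  rw [coeff_C]
  split_ifs
  · exact h
  · simp

lemma ID_X (k : ℕ) : ID k X := by
  intro j
  rw [coeff_X]
  split_ifs <;> simp

lemma mm_natDegree_le (F : ℤ[X][X]) (D : ℕ) (f : ℤ[X][X]) (n : ℕ) (c : ℤ[X]) (K m B : ℕ)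
    (hF : ID B F) (hf : f.natDegree ≤ K) (hfm : ID m f) (hc : c.natDegree = 0)
    (p q : Fin n × Fin D) : (mm F D f n c p q).natDegree ≤ B + (m + B * K) := by
  rw [mm, Matrix.of_apply]
  refine (natDegree_add_le _ _).trans (max_le ?_ ?_)
  · by_cases h : p.1 = q.1
    · rw [if_pos h]
      refine natDegree_mul_le.trans ?_
      rw [hc, zero_add]
      refine le_trans ?_ (Nat.le_add_right B (m + B * K))
      simp only [H322R2.comp, Matrix.of_apply]
      split_ifs
      · simp
      · simp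
      · rw [natDegree_neg]; exact hF _
    · rw [if_neg h]; simp
  · by_cases h : (p.1 : ℕ) + 1 < n
    · rw [if_pos h]
      by_cases h2 : (q.1 : ℕ) = p.1 + 1
      · rw [if_pos h2]
        by_cases h3 : p.2 = q.2
        · rw [h3, Matrix.one_apply_eq]; simp
        · rw [Matrix.one_apply_ne h3]; simp
      · rw [if_neg h2]; simp
    · rw [if_neg h]
      by_cases h2 : (q.1 : ℕ) = 0
      · rw [if_pos h2]
        exact (natDegree_aeval_comp F D B hF f K m hf hfm p.2 q.2).trans (Nat.le_add_left _ _)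
      · rw [if_neg h2]; simp

lemma ID_QQ (F : ℤ[X][X]) (D : ℕ) (f : ℤ[X][X]) (n : ℕ) (c : ℤ[X]) (K m B : ℕ)
    (hF : ID B F) (hf : f.natDegree ≤ K) (hfm : ID m f) (hc : c.natDegree = 0) :
    ID (n * D * (B + (m + B * K))) (QQ F D f n c) := by
  rw [QQ, Matrix.charpoly, Matrix.det_apply]
  apply ID_sum
  intro σ _
  have h1 : ID (n * D * (B + (m + B * K))) (∏ i, Matrix.charmatrix (mm F D f n c) (σ i) i) := by
    have h2 := ID_prod (Finset.univ : Finset (Fin n × Fin D))
      (fun i => Matrix.charmatrix (mm F D f n c) (σ i) i) (B + (m + B * K)) (by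
        intro i _
        rw [Matrix.charmatrix_apply]
        apply ID.sub
        · by_cases h : σ i = i
          · rw [h, Matrix.diagonal_apply_eq]; exact ID_X _
          · rw [Matrix.diagonal_apply_ne _ h]; exact ID_zero _
        · exact ID_C (mm_natDegree_le F D f n c K m B hF hf hfm hc _ _))
    rwa [Finset.card_univ, Fintype.card_prod, Fintype.card_fin, Fintype.card_fin] at h2
  rcases Int.units_eq_one_or (Equiv.Perm.sign σ) with h | h
  · rw [h, one_smul]; exact h1
  · rw [h]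
    have := h1.neg
    simpa using this

end

end Pool.Agent.K1H93.TG
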