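import Pool.Agent.K1H93.TG.Prim
import Pool.Agent.K1H93.TG.Mat
import Pool.Agent.H322R2.Ev

set_option autoImplicit false

/-! The plane model `(α, σ + c β)` of a cyclic covering. -/

open Polynomial IntermediateField

namespace Pool.Agent.K1H93.TG

open Pool.Agent.H322R2

/-- `ℚ(X)` -/
abbrev KK : Type := FractionRing ℚ[X]

/-- `ℤ[X][X] → ℚ[X][X]` on coefficients -/
noncomputable abbrev iq : ℤ[X] →+* ℚ[X] := mapRingHom (Int.castRingHom ℚ)

section

variable {L : Type} [Field L] [Algebra ℚ L]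

/-- `ℚ(X) → L`, `X ↦ α` -/
noncomputable def liftK (α : L) (hα : Transcendental ℚ α) : KK →+* L :=
  IsFractionRing.lift (g := (aeval α : ℚ[X] →ₐ[ℚ] L).toRingHom) (transcendental_iff_injective.1 hα)

lemma liftK_apply (α : L) (hα : Transcendental ℚ α) (p : ℚ[X]) :
    liftK α hα (algebraMap ℚ[X] KK p) = aeval α p := by
  rw [liftK, IsFractionRing.lift_algebraMap]; rfl

lemma adj_mem {E : Type} [Field E] [Algebra KK E] (α β : L) (j : L →+* E)
    (hj : ∀ p : ℚ[X], algebraMap KK E (algebraMap ℚ[X] KK p) = j (aeval α p))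
    (S : IntermediateField KK E) (hβ : j β ∈ S) (w : L) (hw : w ∈ Algebra.adjoin ℚ {α, β}) :
    j w ∈ S := by
  induction hw using Algebra.adjoin_induction with
  | mem x hx =>
    rcases hx with rfl | hx
    · have h1 := hj X
      rw [aeval_X] at h1
      rw [← h1]
      exact S.algebraMap_mem _
    · rw [Set.mem_singleton_iff.1 hx]; exact hβ
  | algebraMap r =>
    have h1 := hj (C r)
    rw [aeval_C] at h1
    rw [← h1]
    exact S.algebraMap_mem _
  | add x y _ _ hx hy => rw [map_add]; exact add_mem hx hy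
  | mul x y _ _ hx hy => rw [map_mul]; exact mul_mem hx hy

lemma all_mem {E : Type} [Field E] [Algebra KK E] (α β : L) (j : L →+* E)
    (hj : ∀ p : ℚ[X], algebraMap KK E (algebraMap ℚ[X] KK p) = j (aeval α p))
    (hgen : ∀ z : L, ∃ w1 ∈ Algebra.adjoin ℚ {α, β}, ∃ w2 ∈ Algebra.adjoin ℚ {α, β},
      w2 ≠ 0 ∧ w2 * z = w1)
    (S : IntermediateField KK E) (hβ : j β ∈ S) (z : L) : j z ∈ S := by
  obtain ⟨w1, h1, w2, h2, h3, h4⟩ := hgen z
  have h5 : j z = j w1 / j w2 := by
    rw [eq_div_iff ((map_ne_zero j).2 h3), ← h4, map_mul, mul_comm]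
  rw [h5]
  exact div_mem (adj_mem α β j hj S hβ w1 h1) (adj_mem α β j hj S hβ w2 h2)

lemma ev_eq (α β : L) (F : ℤ[X][X]) :
    eval₂ (aeval α : ℚ[X] →ₐ[ℚ] L).toRingHom β (F.map iq) = ev α β F := by
  rw [eval₂_map, ev_apply]
  congr 1
  apply Polynomial.ringHom_ext'
  · exact RingHom.ext_int _ _
  · simp [evf]

/-- `[L : ℚ(α)] = D` -/
lemma finrank_base (α β : L) (hα : Transcendental ℚ α) (F : ℤ[X][X]) (hFm : F.Monic) (D : ℕ)
    (hFD : F.natDegree = D) (hFi : Irreducible (F.map iq)) (hF : ev α β F = 0)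
    (hgen : ∀ z : L, ∃ w1 ∈ Algebra.adjoin ℚ {α, β}, ∃ w2 ∈ Algebra.adjoin ℚ {α, β},
      w2 ≠ 0 ∧ w2 * z = w1) :
    @Module.finrank KK L _ _ (liftK α hα).toAlgebra.toModule = D := by
  let _ : Algebra KK L := (liftK α hα).toAlgebra
  have hj : ∀ p : ℚ[X], algebraMap KK L (algebraMap ℚ[X] KK p) = RingHom.id L (aeval α p) :=
    fun p => liftK_apply α hα p
  have hmQ : (F.map iq).Monic := hFm.map _
  have hirr : Irreducible ((F.map iq).map (algebraMap ℚ[X] KK)) :=
    (hmQ.irreducible_iff_irreducible_map_fraction_map (K := KK)).1 hFi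
  have hroot : aeval β ((F.map iq).map (algebraMap ℚ[X] KK)) = 0 := by
    rw [aeval_def, eval₂_map, ← hF, ← ev_eq]
    congr 1
    exact RingHom.ext hj
  have hmin : (F.map iq).map (algebraMap ℚ[X] KK) = minpoly KK β :=
    minpoly.eq_of_irreducible_of_monic hirr hroot (hmQ.map _)
  have hint : IsIntegral KK β := ⟨_, hmQ.map _, hroot⟩
  have htop : KK⟮β⟯ = ⊤ := by
    rw [eq_top_iff]
    intro z _
    exact all_mem α β (RingHom.id L) hj hgen _ (mem_adjoin_simple_self KK β) z
  have h1 : Module.finrank KK KK⟮β⟯ = (minpoly KK β).natDegree := adjoin.finrank hint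
  rw [htop, IntermediateField.finrank_top', ← hmin, (hmQ.natDegree_map _), hFm.natDegree_map,
    hFD] at h1
  exact h1

end

section

variable {L E : Type} [Field L] [Algebra ℚ L] [Field E] [Algebra L E] [Algebra ℚ E]

/-- the evaluation `X ↦ x`, `Y ↦ v` on `ℚ[X][Y]` -/
noncomputable def evQ (x v : E) : ℚ[X][X] →+* E :=
  eval₂RingHom (aeval x : ℚ[X] →ₐ[ℚ] E).toRingHom v

lemma evQ_map (x v : E) (G : ℤ[X][X]) : evQ x v (G.map iq) = ev x v G := ev_eq x v G

/-- **the plane model** -/
theorem plane_model [IsScalarTower ℚ L E] (α β : L) (hα : Transcendental ℚ α) (F : ℤ[X][X])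
    (hFm : F.Monic) (D : ℕ) (hD : 1 ≤ D) (hFD : F.natDegree = D) (hFi : Irreducible (F.map iq))
    (hF : ev α β F = 0)
    (hgen : ∀ z : L, ∃ w1 ∈ Algebra.adjoin ℚ {α, β}, ∃ w2 ∈ Algebra.adjoin ℚ {α, β},
      w2 ≠ 0 ∧ w2 * z = w1) (f : ℤ[X][X]) (n : ℕ) (hn : 1 ≤ n) (σ : E)
    (hσ : σ ^ n = algebraMap L E (ev α β f)) (hE : Module.finrank L E = n) (hLE : L⟮σ⟯ = ⊤) :
    ∃ c : ℕ, c ≤ n * D ∧ Irreducible ((QQ F D f n (c : ℤ[X])).map iq) ∧
      (∀ W : ℚ[X][X], evQ (algebraMap L E α) (σ + c * algebraMap L E β) W = 0 ↔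
        (QQ F D f n (c : ℤ[X])).map iq ∣ W) ∧
      (∀ z : E, ∃ W1 W2 : ℚ[X][X], evQ (algebraMap L E α) (σ + c * algebraMap L E β) W2 ≠ 0 ∧
        evQ (algebraMap L E α) (σ + c * algebraMap L E β) W2 * z =
          evQ (algebraMap L E α) (σ + c * algebraMap L E β) W1) := by
  let _ : Algebra KK L := (liftK α hα).toAlgebra
  let _ : Algebra KK E := ((algebraMap L E).comp (liftK α hα)).toAlgebra
  have htower : IsScalarTower KK L E := IsScalarTower.of_algebraMap_eq' rfl
  have hchar : CharZero KK := by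
    have : CharZero ℚ[X] := inferInstance
    exact charZero_of_injective_algebraMap (IsFractionRing.injective ℚ[X] KK)
  have hj : ∀ p : ℚ[X], algebraMap KK E (algebraMap ℚ[X] KK p) = algebraMap L E (aeval α p) := by
    intro p
    change algebraMap L E (liftK α hα (algebraMap ℚ[X] KK p)) = _
    rw [liftK_apply]
  have hfL : Module.finrank KK L = D := finrank_base α β hα F hFm D hFD hFi hF hgen
  have hfE : Module.finrank KK E = n * D := by
    rw [← Module.finrank_mul_finrank KK L E, hfL, hE, mul_comm]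
  have hfin : FiniteDimensional KK E :=
    Module.finite_of_finrank_pos (by rw [hfE]; exact Nat.mul_pos hn hD)
  have hgenE : KK⟮algebraMap L E β, σ⟯ = ⊤ := by
    rw [eq_top_iff]
    rintro z -
    have hall := all_mem α β (algebraMap L E) hj hgen KK⟮algebraMap L E β, σ⟯
      (IntermediateField.subset_adjoin _ _ (by simp))
    have hσm : σ ∈ KK⟮algebraMap L E β, σ⟯ := IntermediateField.subset_adjoin _ _ (by simp)
    have hz : z ∈ L⟮σ⟯ := by rw [hLE]; exact IntermediateField.mem_top
    induction hz using IntermediateField.adjoin_induction with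
    | mem x hx => rw [Set.mem_singleton_iff.1 hx]; exact hσm
    | algebraMap x => exact hall x
    | add x y _ _ hx hy => exact add_mem hx hy
    | inv x _ hx => exact inv_mem hx
    | mul x y _ _ hx hy => exact mul_mem hx hy
  obtain ⟨c, hc, hprim⟩ := exists_prim KK E (algebraMap L E β) σ hgenE
  rw [hfE] at hc
  refine ⟨c, hc, ?_⟩
  obtain ⟨v, hv⟩ : ∃ v, v = σ + c * algebraMap L E β := ⟨_, rfl⟩
  rw [← hv] at hprim ⊢
  obtain ⟨Q, hQ⟩ : ∃ Q, Q = QQ F D f n (c : ℤ[X]) := ⟨_, rfl⟩
  rw [← hQ]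
  have hQm : Q.Monic := by rw [hQ]; exact QQ_monic _ _ _ _ _
  have hQd : Q.natDegree = n * D := by rw [hQ]; exact QQ_natDegree _ _ _ _ _
  have hevm : ∀ G : ℤ[X][X], ev (algebraMap L E α) (algebraMap L E β) G =
      algebraMap L E (ev α β G) := fun G => (map_ev (algebraMap L E) α β G).symm
  have hQv : ev (algebraMap L E α) v Q = 0 := by
    have h1 := QQ_root (evf (algebraMap L E α)) (algebraMap L E β) σ F D hFm hFD
      (by rw [← ev_apply, hevm, hF, map_zero]) f n (c : ℤ[X])
      (by rw [← ev_apply, hevm, hσ]) hn hD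
    rw [map_natCast, ← hv, ← hQ] at h1
    rw [ev_apply]; exact h1
  have hcomp : (algebraMap KK E).comp (algebraMap ℚ[X] KK) =
      (aeval (algebraMap L E α) : ℚ[X] →ₐ[ℚ] E).toRingHom := by
    apply RingHom.ext
    intro p
    change algebraMap KK E (algebraMap ℚ[X] KK p) = aeval (algebraMap L E α) p
    rw [hj, aeval_algebraMap_apply]
  have hev2 : ∀ W : ℚ[X][X], aeval v (W.map (algebraMap ℚ[X] KK)) =
      evQ (algebraMap L E α) v W := by
    intro W
    rw [aeval_def, eval₂_map, hcomp]; rfl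
  have hQm1 : (Q.map iq).Monic := hQm.map _
  have hQroot : aeval v ((Q.map iq).map (algebraMap ℚ[X] KK)) = 0 := by
    rw [hev2, evQ_map, hQv]
  have hint : IsIntegral KK v := ⟨_, hQm1.map _, hQroot⟩
  have hmin : minpoly KK v = (Q.map iq).map (algebraMap ℚ[X] KK) := by
    symm
    apply eq_of_monic_of_dvd_of_natDegree_le (minpoly.monic hint) (hQm1.map _)
      (minpoly.dvd KK v hQroot)
    rw [hQm1.natDegree_map, hQm.natDegree_map, hQd, ← hfE, ← adjoin.finrank hint, hprim,
      IntermediateField.finrank_top']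
  have hirrK : Irreducible ((Q.map iq).map (algebraMap ℚ[X] KK)) := by
    rw [← hmin]; exact minpoly.irreducible hint
  refine ⟨(hQm1.irreducible_iff_irreducible_map_fraction_map (K := KK)).2 hirrK, ?_, ?_⟩
  · intro W
    rw [← hev2, ← minpoly.dvd_iff, hmin]
    exact map_dvd_map _ (IsFractionRing.injective ℚ[X] KK) hQm1
  · intro z
    have hz : z ∈ KK⟮v⟯ := by rw [hprim]; exact IntermediateField.mem_top
    have hcl : z ∈ Subfield.closure (Set.range (evQ (algebraMap L E α) v)) := by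
      induction hz using IntermediateField.adjoin_induction with
      | mem x hx =>
        rw [Set.mem_singleton_iff.1 hx]
        apply Subfield.subset_closure
        exact ⟨X, by rw [evQ, coe_eval₂RingHom, eval₂_X]⟩
      | algebraMap x =>
        obtain ⟨p, q, hq, rfl⟩ := IsFractionRing.div_surjective (A := ℚ[X]) x
        rw [map_div₀]
        have hp : ∀ p : ℚ[X], algebraMap KK E (algebraMap ℚ[X] KK p) ∈
            Subfield.closure (Set.range (evQ (algebraMap L E α) v)) := by
          intro p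
          apply Subfield.subset_closure
          refine ⟨C p, ?_⟩
          rw [evQ, coe_eval₂RingHom, eval₂_C, ← hcomp]; rfl
        exact div_mem (hp p) (hp q)
      | add x y _ _ hx hy => exact add_mem hx hy
      | inv x _ hx => exact inv_mem hx
      | mul x y _ _ hx hy => exact mul_mem hx hy
    rw [Subfield.mem_closure_iff] at hcl
    obtain ⟨y1, hy1, y2, hy2, hy⟩ := hcl
    have hrange : Subring.closure (Set.range (evQ (algebraMap L E α) v)) =
        (evQ (algebraMap L E α) v).range := by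
      rw [← RingHom.coe_range, Subring.closure_eq]
    rw [hrange] at hy1 hy2
    obtain ⟨W1, rfl⟩ := hy1
    obtain ⟨W2, rfl⟩ := hy2
    by_cases h0 : evQ (algebraMap L E α) v W2 = 0
    · refine ⟨0, 1, ?_, ?_⟩
      · rw [map_one]; exact one_ne_zero
      · rw [← hy, h0, div_zero, mul_zero, map_zero]
    · refine ⟨W1, W2, h0, ?_⟩
      rw [← hy]
      field_simp

end

end Pool.Agent.K1H93.TG
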