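import Pool.Agent.Y910.G.P5
import Pool.Agent.K1H93.TC.Cover
import Pool.Agent.K1H93.TG.Fld

set_option autoImplicit false

/-! The bound for the integer points that lift to a cyclic covering. -/

open Polynomial IntermediateField

namespace Pool.Agent.K1H93.TG

open Pool.Agent.H322R2

lemma symm_toB_eq (Q : ℤ[X][X]) : (toB ℤ).symm Q = ∑ j ∈ Q.support, ∑ i ∈ (Q.coeff j).support,
    MvPolynomial.monomial (Finsupp.single 0 j + Finsupp.single 1 i) ((Q.coeff j).coeff i) := by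
  rw [AlgEquiv.symm_apply_eq, map_sum]
  conv_lhs => rw [Q.as_sum_support]
  apply Finset.sum_congr rfl
  intro j _
  rw [map_sum]
  conv_lhs => rw [(Q.coeff j).as_sum_support, map_sum]
  apply Finset.sum_congr rfl
  intro i _
  rw [toB_monomial]
  simp

lemma len_symm_toB_le (Q : ℤ[X][X]) : (len ((toB ℤ).symm Q) : ℝ) ≤ pn (pn zn) Q := by
  rw [symm_toB_eq, pn_apply]
  have h1 : len (∑ j ∈ Q.support, ∑ i ∈ (Q.coeff j).support,
      MvPolynomial.monomial (Finsupp.single 0 j + Finsupp.single 1 i) ((Q.coeff j).coeff i)) ≤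
      ∑ j ∈ Q.support, ∑ i ∈ (Q.coeff j).support, ((Q.coeff j).coeff i).natAbs := by
    refine (TC.len_sum_le _ _).trans (Finset.sum_le_sum fun j _ => ?_)
    refine (TC.len_sum_le _ _).trans (Finset.sum_le_sum fun i _ => ?_)
    exact TC.len_monomial_le _ _
  have h2 : ((∑ j ∈ Q.support, ∑ i ∈ (Q.coeff j).support, ((Q.coeff j).coeff i).natAbs : ℕ) : ℝ) =
      ∑ i ∈ Q.support, pn zn (Q.coeff i) := by
    push_cast
    apply Finset.sum_congr rfl
    intro j _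
    rw [pn_apply]
    apply Finset.sum_congr rfl
    intro i _
    rw [zn_apply, Nat.cast_natAbs, Int.cast_abs]
  rw [← h2]
  exact_mod_cast h1

lemma totalDegree_symm_toB_le (Q : ℤ[X][X]) (N k : ℕ) (hN : Q.natDegree ≤ N) (hk : ID k Q) :
    ((toB ℤ).symm Q).totalDegree ≤ N + k := by
  rw [symm_toB_eq]
  apply MvPolynomial.totalDegree_finsetSum_le
  intro j hj
  apply MvPolynomial.totalDegree_finsetSum_le
  intro i hi
  refine (MvPolynomial.totalDegree_monomial_le _ _).trans ?_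
  rw [Finsupp.sum_add_index' (by simp) (by simp), Finsupp.sum_single_index (by simp),
    Finsupp.sum_single_index (by simp)]
  have h1 : j ≤ Q.natDegree := le_natDegree_of_mem_supp j hj
  have h2 : i ≤ (Q.coeff j).natDegree := le_natDegree_of_mem_supp i hi
  have h3 := hk j
  change j + i ≤ N + k
  omega

/-- the size of the plane model -/
lemma pn_model_le (F f : ℤ[X][X]) (D n K c H : ℕ) (hn : 1 ≤ n) (hD : 1 ≤ D) (hc : c ≤ n * D)
    (hH : 1 ≤ H) (hF : pn (pn zn) F ≤ H) (hf : pn (pn zn) f ≤ H) (hfK : f.natDegree ≤ K) :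
    len ((toB ℤ).symm (QQ F D f n (c : ℤ[X]))) ≤
      ((n * D).factorial * (n * D + 3) * 2 * H) ^ ((K + 1) * (n * D)) := by
  have h1 : pn zn (1 : ℤ[X]) ≤ 1 := by rw [pn_one]; simp
  have h2 := pn_QQ_le (pn zn) h1 F D f n (c : ℤ[X]) K hfK
  have hF0 : 0 ≤ pn (pn zn) F := apply_nonneg _ _
  have hf0 : 0 ≤ pn (pn zn) f := apply_nonneg _ _
  have hc0 : pn zn (c : ℤ[X]) ≤ (n * D : ℕ) := by
    have e1 : (c : ℤ[X]) = C (c : ℤ) := by simp
    rw [e1, pn_C, zn_apply]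
    simp only [Int.cast_natCast, Nat.abs_cast]
    exact_mod_cast hc
  have hc1 : 0 ≤ pn zn (c : ℤ[X]) := apply_nonneg _ _
  have hHR : (1 : ℝ) ≤ H := by exact_mod_cast hH
  have h3 : 1 + (pn zn (c : ℤ[X]) * (1 + pn (pn zn) F) +
      (1 + pn (pn zn) f * (1 + pn (pn zn) F) ^ K)) ≤ ((n * D + 3 : ℕ) : ℝ) * (2 * H) ^ (K + 1) := by
    have e1 : 1 + pn (pn zn) F ≤ 2 * H := by linarith
    have e0 : 0 ≤ 1 + pn (pn zn) F := by linarith
    have e2 : (1 + pn (pn zn) F) ^ K ≤ (2 * H : ℝ) ^ K := pow_le_pow_left₀ e0 e1 K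
    have e3 : (1 : ℝ) ≤ (2 * H) ^ (K + 1) := one_le_pow₀ (by linarith)
    have e4 : (2 * H : ℝ) ≤ (2 * H) ^ (K + 1) := le_self_pow₀ (by linarith) (by omega)
    have e5 : pn (pn zn) f * (1 + pn (pn zn) F) ^ K ≤ (2 * H) ^ (K + 1) := by
      rw [pow_succ']
      exact mul_le_mul (by linarith) e2 (by positivity) (by linarith)
    have e6 : pn zn (c : ℤ[X]) * (1 + pn (pn zn) F) ≤ (n * D : ℕ) * (2 * H) ^ (K + 1) :=
      mul_le_mul hc0 (e1.trans e4) e0 (Nat.cast_nonneg _)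
    have e7 : ((n * D + 3 : ℕ) : ℝ) = ((n * D : ℕ) : ℝ) + 3 := by push_cast; ring
    rw [e7]
    nlinarith
  have h4 : (len ((toB ℤ).symm (QQ F D f n (c : ℤ[X]))) : ℝ) ≤
      ((((n * D).factorial * ((n * D + 3) * (2 * H) ^ (K + 1)) ^ (n * D) : ℕ)) : ℝ) := by
    refine (len_symm_toB_le _).trans (h2.trans ?_)
    rw [Nat.cast_mul, Nat.cast_pow, Nat.cast_mul, Nat.cast_pow, Nat.cast_mul 2 H, Nat.cast_ofNat]
    apply mul_le_mul_of_nonneg_left _ (Nat.cast_nonneg _)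
    apply pow_le_pow_left₀ _ h3
    have : 0 ≤ pn (pn zn) f * (1 + pn (pn zn) F) ^ K := by positivity
    positivity
  have h5 : len ((toB ℤ).symm (QQ F D f n (c : ℤ[X]))) ≤
      (n * D).factorial * ((n * D + 3) * (2 * H) ^ (K + 1)) ^ (n * D) := by exact_mod_cast h4
  refine h5.trans ?_
  have hnD : 1 ≤ n * D := Nat.mul_pos hn hD
  have he : (K + 1) * (n * D) ≠ 0 := by positivity
  calc (n * D).factorial * ((n * D + 3) * (2 * H) ^ (K + 1)) ^ (n * D)
      = (n * D).factorial * (n * D + 3) ^ (n * D) * (2 * H) ^ ((K + 1) * (n * D)) := by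
        rw [mul_pow, ← pow_mul]; ring
    _ ≤ (n * D).factorial ^ ((K + 1) * (n * D)) * (n * D + 3) ^ ((K + 1) * (n * D)) *
          (2 * H) ^ ((K + 1) * (n * D)) := by
        apply Nat.mul_le_mul_right
        apply Nat.mul_le_mul
        · exact Nat.le_self_pow he _
        · exact Nat.pow_le_pow_right (by omega) (Nat.le_mul_of_pos_left _ (by omega))
    _ = _ := by rw [← mul_pow, ← mul_pow]; ring

theorem cov_bound (n D K m B : ℕ) (hn : 1 ≤ n) (hD : 1 ≤ D) :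
    ∃ (C0 : ℕ) (c0 : IntermediateField ℚ ℝ → ℕ), 1 ≤ C0 ∧ (∀ M, 1 ≤ c0 M) ∧
      ∀ F f : ℤ[X][X], F.Monic → F.natDegree = D → ID B F → f.natDegree ≤ K → ID m f →
      Irreducible (F.map iq) → ∀ H : ℕ, 1 ≤ H → pn (pn zn) F ≤ H → pn (pn zn) f ≤ H →
      ∀ (L E : Type) [Field L] [Algebra ℚ L] [Field E] [Algebra L E] [Algebra ℚ E]
        [IsScalarTower ℚ L E] (α β : L), Transcendental ℚ α → ev α β F = 0 →
      (∀ z : L, ∃ w1 ∈ Algebra.adjoin ℚ {α, β}, ∃ w2 ∈ Algebra.adjoin ℚ {α, β},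
        w2 ≠ 0 ∧ w2 * z = w1) →
      ∀ σ : E, σ ^ n = algebraMap L E (ev α β f) → Module.finrank L E = n → L⟮σ⟯ = ⊤ →
      ∀ a b s : ℤ, ev a b F = 0 → s ^ n = ev a b f →
      a.natAbs ≤ (C0 * H) ^ C0 ∨
      ∃ A : ValuationSubring E, (∀ A' : ValuationSubring E,
        (∀ q : ℚ, algebraMap ℚ E q ∈ A') → algebraMap L E α ∉ A' → A' = A) ∧
        ∃ g : ℚ[X], g.Monic ∧ Irreducible g ∧
          Nonempty (IsLocalRing.ResidueField A ≃+* AdjoinRoot g) ∧
          ∃ η : ℝ, aeval η g = 0 ∧ (g.natDegree ≤ 2 ∨ a.natAbs ≤ (c0 ℚ⟮η⟯ * H) ^ C0) := by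
  choose C1 c1 hC using Pool.Agent.Y910.G.main
  obtain ⟨D2, hD2⟩ : ∃ D2, D2 = n * D + n * D * (B + (m + B * K)) := ⟨_, rfl⟩
  obtain ⟨C2, hC2⟩ : ∃ C2, C2 = 1 + ∑ d ∈ Finset.range (D2 + 1), C1 d := ⟨_, rfl⟩
  obtain ⟨c2, hc2⟩ : ∃ c2 : IntermediateField ℚ ℝ → ℕ, c2 = fun M =>
    1 + ∑ d ∈ Finset.range (D2 + 1), c1 d M := ⟨_, rfl⟩
  obtain ⟨M1, hM1⟩ : ∃ M1, M1 = (n * D).factorial * (n * D + 3) * 2 := ⟨_, rfl⟩
  obtain ⟨e1, he1⟩ : ∃ e1, e1 = (K + 1) * (n * D) := ⟨_, rfl⟩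
  have hnD : 1 ≤ n * D := Nat.mul_pos hn hD
  have he1' : 1 ≤ e1 := by rw [he1]; exact Nat.mul_pos (by omega) hnD
  have hM1' : 1 ≤ M1 := by
    rw [hM1]
    exact Nat.mul_pos (Nat.mul_pos (Nat.factorial_pos _) (by omega)) (by norm_num)
  refine ⟨C2 * M1 + e1 * C2, fun M => c2 M * M1, ?_, ?_, ?_⟩
  · have : 0 < C2 * M1 := Nat.mul_pos (by omega) (by omega)
    omega
  · intro M
    have : 1 ≤ c2 M := by rw [hc2]; exact Nat.le_add_right 1 _
    exact Nat.mul_pos this (by omega)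
  intro F f hFm hFD hFB hfK hfm hFi H hH hFH hfH L E _ _ _ _ _ _ α β hα hF hgen σ hσ hfin htop
    a b s hab hs
  obtain ⟨c, hc, hirr, hker, hsurj⟩ := plane_model α β hα F hFm D hD hFD hFi hF hgen f n hn σ hσ
    hfin htop
  obtain ⟨Q, hQ⟩ : ∃ Q, Q = QQ F D f n (c : ℤ[X]) := ⟨_, rfl⟩
  obtain ⟨v, hv⟩ : ∃ v, v = σ + c * algebraMap L E β := ⟨_, rfl⟩
  rw [← hQ] at hirr hker
  rw [← hv] at hker hsurj
  obtain ⟨P, hP⟩ : ∃ P, P = (toB ℤ).symm Q := ⟨_, rfl⟩
  have hPQ : toB ℤ P = Q := by rw [hP, AlgEquiv.apply_symm_apply]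
  have hPmap : toB ℚ (MvPolynomial.map (Int.castRingHom ℚ) P) = Q.map iq := by
    rw [toB_map, hPQ]
  have hPirr : Irreducible (MvPolynomial.map (Int.castRingHom ℚ) P) := by
    rw [← MulEquiv.irreducible_iff (toB ℚ), hPmap]; exact hirr
  obtain ⟨π, hπ⟩ : ∃ π : MvPolynomial (Fin 2) ℚ →ₐ[ℚ] E, π =
    MvPolynomial.aeval ![v, algebraMap L E α] := ⟨_, rfl⟩
  have hπ0 : π (MvPolynomial.X 0) = v := by rw [hπ, MvPolynomial.aeval_X]; rfl
  have hπ1 : π (MvPolynomial.X 1) = algebraMap L E α := by rw [hπ, MvPolynomial.aeval_X]; rfl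
  have hπev : ∀ w, π w = evQ (algebraMap L E α) v (toB ℚ w) := by
    have h1 : (π : MvPolynomial (Fin 2) ℚ →+* E) =
        (evQ (algebraMap L E α) v).comp (toB ℚ : MvPolynomial (Fin 2) ℚ →+* ℚ[X][X]) := by
      apply MvPolynomial.ringHom_ext
      · intro q
        have h2 : π (MvPolynomial.C q) = algebraMap ℚ E q := MvPolynomial.algHom_C _ _
        rw [RingHom.coe_coe, h2, RingHom.comp_apply, RingHom.coe_coe, toB_C, evQ,
          coe_eval₂RingHom, eval₂_C]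
        change _ = aeval (algebraMap L E α) (C q)
        rw [aeval_C]
      · intro i
        fin_cases i
        · change π (MvPolynomial.X 0) = evQ (algebraMap L E α) v (toB ℚ (MvPolynomial.X 0))
          rw [hπ0, toB_X0, evQ, coe_eval₂RingHom, eval₂_X]
        · change π (MvPolynomial.X 1) = evQ (algebraMap L E α) v (toB ℚ (MvPolynomial.X 1))
          rw [hπ1, toB_X1, evQ, coe_eval₂RingHom, eval₂_C]
          change _ = aeval (algebraMap L E α) X
          rw [aeval_X]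
    intro w
    exact congrArg (fun φ : MvPolynomial (Fin 2) ℚ →+* E => φ w) h1
  have hk : ∀ w, π w = 0 ↔ MvPolynomial.map (Int.castRingHom ℚ) P ∣ w := by
    intro w
    rw [hπev, hker, ← hPmap]
    exact map_dvd_iff (toB ℚ)
  have hs2 : ∀ z : E, ∃ w1 w2, π w2 ≠ 0 ∧ π w2 * z = π w1 := by
    intro z
    obtain ⟨W1, W2, h1, h2⟩ := hsurj z
    refine ⟨(toB ℚ).symm W1, (toB ℚ).symm W2, ?_, ?_⟩
    · rw [hπev, AlgEquiv.apply_symm_apply]; exact h1
    · rw [hπev, hπev, AlgEquiv.apply_symm_apply, AlgEquiv.apply_symm_apply]; exact h2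
  have hzero : MvPolynomial.eval ![s + c * b, a] P = 0 := by
    have h1 := QQ_root (evf a) b s F D hFm hFD (by rw [← ev_apply]; exact hab) f n (c : ℤ[X])
      (by rw [← ev_apply]; exact hs) hn hD
    rw [map_natCast, ← hQ] at h1
    have h2 := ev_toB (S := ℤ) (s + c * b) a P
    rw [hPQ, ev_apply, h1] at h2
    rw [MvPolynomial.eval, MvPolynomial.coe_eval₂Hom]
    exact h2.symm
  have hdeg : P.totalDegree ≤ D2 := by
    rw [hP, hD2]
    apply totalDegree_symm_toB_le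
    · rw [hQ, QQ_natDegree]
    · rw [hQ]
      exact ID_QQ F D f n (c : ℤ[X]) K m B hFB hfK hfm (natDegree_natCast c)
  have hlen : len P ≤ (M1 * H) ^ e1 := by
    rw [hP, hQ, hM1, he1]
    exact pn_model_le F f D n K c H hn hD hc hH hFH hfH hfK
  have hC1 : C1 P.totalDegree ≤ C2 := by
    rw [hC2]
    have := Finset.single_le_sum (f := C1) (fun _ _ => Nat.zero_le _)
      (Finset.mem_range.2 (show P.totalDegree < D2 + 1 by omega))
    omega
  have hc1 : ∀ M, c1 P.totalDegree M ≤ c2 M := by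
    intro M
    rw [hc2]
    have := Finset.single_le_sum (f := fun d => c1 d M) (fun _ _ => Nat.zero_le _)
      (Finset.mem_range.2 (show P.totalDegree < D2 + 1 by omega))
    exact this.trans (Nat.le_add_left _ _)
  have hP0 : P ≠ 0 := by
    rintro rfl
    rw [map_zero] at hPirr
    exact hPirr.ne_zero rfl
  have hlen1 := Pool.Agent.Y910.G.len_pos hP0
  have hfinal : ∀ k k' : ℕ, 1 ≤ k' → k ≤ k' → (k * len P) ^ C1 P.totalDegree ≤
      (k' * M1 * H) ^ (C2 * M1 + e1 * C2) := by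
    intro k k' hk' hkk
    have h1 : k * len P ≤ (k' * M1 * H) ^ e1 := by
      calc k * len P ≤ k' * (M1 * H) ^ e1 := Nat.mul_le_mul hkk hlen
        _ ≤ k' ^ e1 * (M1 * H) ^ e1 := Nat.mul_le_mul_right _ (Nat.le_self_pow (by omega) _)
        _ = _ := by rw [← mul_pow, mul_assoc]
    have hpos : 1 ≤ k' * M1 * H := Nat.mul_pos (Nat.mul_pos hk' (by omega)) hH
    calc (k * len P) ^ C1 P.totalDegree ≤ ((k' * M1 * H) ^ e1) ^ C1 P.totalDegree :=
          Nat.pow_le_pow_left h1 _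
      _ = (k' * M1 * H) ^ (e1 * C1 P.totalDegree) := by rw [← pow_mul]
      _ ≤ _ := Nat.pow_le_pow_right hpos
          ((Nat.mul_le_mul_left e1 hC1).trans (Nat.le_add_left _ _))
  rcases hC P.totalDegree P rfl hPirr E π hk hs2 (s + c * b) a hzero with
    h | ⟨A, hA, g, hg1, hg2, hg3, η, hη, h⟩
  · left
    refine (h.2.trans (hfinal _ C2 (by omega) hC1)).trans ?_
    apply Nat.pow_le_pow_left
    exact Nat.mul_le_mul_right _ (Nat.le_add_right _ _)
  · right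
    refine ⟨A, ?_, g, hg1, hg2, hg3, η, hη, ?_⟩
    · intro A' hA'1 hA'2
      rw [hπ0, hπ1] at hA
      exact (hA A').1 ⟨hA'1, fun h => hA'2 h.2⟩
    · rcases h with h | h
      · exact Or.inl h
      · right
        have hc2' : 1 ≤ c2 ℚ⟮η⟯ := by rw [hc2]; exact Nat.le_add_right 1 _
        exact h.2.trans (hfinal _ (c2 ℚ⟮η⟯) hc2' (hc1 _))

end Pool.Agent.K1H93.TG
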