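import Pool.Agent.K1H93.TG.Gen

set_option autoImplicit false

/-! The bound for all plane curves. -/

open Polynomial IntermediateField

namespace Pool.Agent.K1H93.TG

open Pool.Agent.H322R2

lemma one_le_len {F : MvPolynomial (Fin 2) ℤ} (hF : F ≠ 0) : 1 ≤ len F := by
  obtain ⟨k, hk⟩ := MvPolynomial.support_nonempty.2 hF
  exact Nat.lt_of_lt_of_le (Int.natAbs_pos.2 (MvPolynomial.mem_support_iff.1 hk))
    (Finset.single_le_sum (f := fun m => (F.coeff m).natAbs) (fun _ _ => Nat.zero_le _) hk)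

lemma zero_case (n D : ℕ) (hn : 1 ≤ n) (F f : MvPolynomial (Fin 2) ℤ)
    (hirr : Irreducible (MvPolynomial.map (Int.castRingHom ℚ) F)) (hFD : F.totalDegree ≤ D)
    (hfD : f.totalDegree ≤ D) (u : ℕ) (hc : lc F u ≠ 0) (hd1 : 1 ≤ F.totalDegree) (H : ℕ)
    (hH : 1 ≤ H) (hGH : pn (pn zn) (GG F u) ≤ H)
    (hfH : pn (pn zn) (fs u (lc F u) (n * D) D f) ≤ H)
    (hnd : ¬ GG F u ∣ fs u (lc F u) (n * D) D f) (x y : ℤ)
    (hxy : MvPolynomial.eval ![x, y] F = 0) (hfxy : MvPolynomial.eval ![x, y] f = 0) :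
    (y - u * x).natAbs ≤ D.factorial * (H * (2 * H) ^ D) ^ D := by
  have hHR : (1 : ℝ) ≤ H := by exact_mod_cast hH
  have h1 := nrm_ne_zero (GG F u) F.totalDegree (GG_monic hc) (GG_natDegree hc)
    (GG_prime hc hd1 hirr) _ hnd
  have hzero : ev (y - u * x) (lc F u * x) (GG F u) = 0 := by
    have h1 := ev_f2 (S := ℤ) u F x y
    rw [eval₂_int, hxy] at h1
    have h2 : ev (y - u * x) x (F2 F u) = 0 := h1
    rw [ev_GG hc hd1, h2, mul_zero]
  have hfz : ev (y - u * x) (lc F u * x) (fs u (lc F u) (n * D) D f) = 0 := by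
    have h2 := ev_fs (S := ℤ) u (lc F u) (n * D) D f hfD (Nat.le_mul_of_pos_left _ hn) x y
    rw [eval₂_int, hfxy, mul_zero] at h2
    simpa using h2
  have h2 := dvd_nrm (evf (y - u * x)) (lc F u * x) (GG F u) F.totalDegree hd1 (GG_monic hc)
    (GG_natDegree hc) (by rw [← ev_apply]; exact hzero) (fs u (lc F u) (n * D) D f)
  rw [← ev_apply, hfz, zero_dvd_iff] at h2
  have h3 := root_le _ h1 _ h2
  have h4 := nrm_le (pn zn) pnz_one (GG F u) F.totalDegree (fs u (lc F u) (n * D) D f) D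
    (fs_natDegree _ _ _ _ _)
  have h5 : |((y - u * x : ℤ) : ℝ)| ≤ ((D.factorial * (H * (2 * H) ^ D) ^ D : ℕ) : ℝ) := by
    refine (h3.trans h4).trans ?_
    push_cast
    have e1 : pn (pn zn) (fs u (lc F u) (n * D) D f) * (1 + pn (pn zn) (GG F u)) ^ D ≤
        H * (2 * H) ^ D := by
      apply mul_le_mul hfH _ (by positivity) (by linarith)
      apply pow_le_pow_left₀ (by positivity)
      linarith
    have e2 : (1 : ℝ) ≤ H * (2 * H) ^ D := by
      have : (1 : ℝ) ≤ (2 * H) ^ D := one_le_pow₀ (by linarith)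
      nlinarith
    apply mul_le_mul _ _ (by positivity) (by positivity)
    · exact_mod_cast Nat.factorial_le hFD
    · exact (pow_le_pow_left₀ (by positivity) e1 _).trans (pow_le_pow_right₀ e2 hFD)
  have h6 : (((y - u * x).natAbs : ℕ) : ℝ) ≤ ((D.factorial * (H * (2 * H) ^ D) ^ D : ℕ) : ℝ) := by
    rw [Nat.cast_natAbs, Int.cast_abs]
    exact h5
  exact Nat.cast_le.1 h6

lemma zero_num (D H C1 : ℕ) (hH : 1 ≤ H) (hC1 : D.factorial * 2 + (D + 1) * D + 1 ≤ C1) :
    D.factorial * (H * (2 * H) ^ D) ^ D ≤ (C1 * H) ^ C1 := by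
  have hf := Nat.factorial_pos D
  have e1 : H * (2 * H) ^ D ≤ (2 * H) ^ (D + 1) := by
    rw [pow_succ']
    exact Nat.mul_le_mul_right _ (by omega)
  have e2 : 1 ≤ C1 * H := Nat.mul_pos (by omega) hH
  calc D.factorial * (H * (2 * H) ^ D) ^ D ≤ D.factorial * ((2 * H) ^ (D + 1)) ^ D :=
        Nat.mul_le_mul_left _ (Nat.pow_le_pow_left e1 _)
    _ = D.factorial * (2 * H) ^ ((D + 1) * D) := by rw [← pow_mul]
    _ ≤ (C1 * H) * (C1 * H) ^ ((D + 1) * D) := by
        apply Nat.mul_le_mul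
        · calc D.factorial ≤ C1 := by omega
            _ ≤ C1 * H := Nat.le_mul_of_pos_right _ hH
        · apply Nat.pow_le_pow_left
          exact Nat.mul_le_mul_right _ (by omega)
    _ = (C1 * H) ^ ((D + 1) * D + 1) := by rw [pow_succ']
    _ ≤ (C1 * H) ^ C1 := Nat.pow_le_pow_right e2 (by omega)

theorem gen (n D : ℕ) (hn : 1 ≤ n) (hD : 1 ≤ D) :
    ∃ (C0 : ℕ) (c : IntermediateField ℚ ℝ → ℕ),
      ∀ (F f : MvPolynomial (Fin 2) ℤ) (a e : ℤ), F.totalDegree ≤ D → f.totalDegree ≤ D →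
      Irreducible (MvPolynomial.map (Int.castRingHom ℚ) F) → a ≠ 0 → e ≠ 0 →
      ∀ (L : Type) [Field L] [Algebra ℚ L] (π : MvPolynomial (Fin 2) ℚ →ₐ[ℚ] L),
      (∀ w, π w = 0 ↔ MvPolynomial.map (Int.castRingHom ℚ) F ∣ w) →
      (∀ z : L, ∃ w1 w2, π w2 ≠ 0 ∧ π w2 * z = π w1) →
      ∀ A : ValuationSubring L, (∀ q : ℚ, algebraMap ℚ L q ∈ A) →
      ¬ (π (MvPolynomial.X 0) ∈ A ∧ π (MvPolynomial.X 1) ∈ A) →
      ∀ (t : L) (w : A), t ≠ 0 → IsUnit w →
      (w : L) = π (MvPolynomial.map (Int.castRingHom ℚ) f) * t ^ n →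
      (∀ d : ℤ, d ∣ (a * e) ^ (n - 1) →
        ¬ Irreducible (X ^ n - C (IsLocalRing.residue A w / (d : IsLocalRing.ResidueField A))) →
        Irreducible (X ^ n - C (π (MvPolynomial.map (Int.castRingHom ℚ) f) / (d : L)))) →
      ∀ x y z g : ℤ, MvPolynomial.eval ![x, y] F = 0 →
        MvPolynomial.eval ![x, y] f * g = a * z ^ n →
        (∀ p : ℤ, p ∣ z → p ∣ MvPolynomial.eval ![x, y] f → p ∣ g → p ∣ e) →
        max x.natAbs y.natAbs ≤ (C0 * (a.natAbs * e.natAbs * len F * len f)) ^ C0 ∨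
        ∃ d : ℤ, d ∣ (a * e) ^ (n - 1) ∧
          Irreducible (X ^ n - C (IsLocalRing.residue A w / (d : IsLocalRing.ResidueField A))) ∧
          ∃ (ι : IsLocalRing.ResidueField A →+* ℝ) (η : ℝ),
            (d : ℝ) * η ^ n = ι (IsLocalRing.residue A w) ∧
            FiniteDimensional ℚ (IntermediateField.adjoin ℚ (Set.range ι ∪ {η})) ∧
            (Module.finrank ℚ (IntermediateField.adjoin ℚ (Set.range ι ∪ {η})) ≤ 2 ∨
              max x.natAbs y.natAbs ≤
                (c (IntermediateField.adjoin ℚ (Set.range ι ∪ {η})) *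
                  (a.natAbs * e.natAbs * len F * len f)) ^ C0) := by
  choose Ck ck hCk hck hmain using fun k : ℕ => core n (k + 1) D D (k + 1) hn (by omega)
  obtain ⟨P, hP⟩ : ∃ P, P = (1 + D) ^ D := ⟨_, rfl⟩
  obtain ⟨E, hE⟩ : ∃ E, E = (n - 1) * (n - 1) + n * D + D + 1 := ⟨_, rfl⟩
  obtain ⟨C1, hC1⟩ : ∃ C1, C1 = ∑ k ∈ Finset.range D, Ck k + (D.factorial * 2 + (D + 1) * D + 1) :=
    ⟨_, rfl⟩
  obtain ⟨c1, hc1⟩ : ∃ c1 : IntermediateField ℚ ℝ → ℕ, c1 = fun M => ∑ k ∈ Finset.range D, ck k M :=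
    ⟨_, rfl⟩
  obtain ⟨E2, hE2⟩ : ∃ E2, E2 = 1 + D + E * C1 := ⟨_, rfl⟩
  have hP1 : 1 ≤ P := by rw [hP]; exact Nat.one_le_pow _ _ (by omega)
  have hE1 : 1 ≤ E := by rw [hE]; omega
  have hC11 : 1 ≤ C1 := by rw [hC1]; omega
  refine ⟨C1 * P + E2, fun M => c1 M * P, ?_⟩
  intro F f a e hFD hfD hirr ha he L _ _ π hker hsurj A hQ hA t w ht hw hwf hcov x y z g hxy hfg hp
  have : CharZero L := algebraRat.charZero L
  have hF0 : F ≠ 0 := by
    rintro rfl
    rw [map_zero] at hirr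
    exact hirr.ne_zero rfl
  have hd1 : 1 ≤ F.totalDegree := by
    by_contra hlt
    have h0 : F.totalDegree = 0 := by omega
    rw [MvPolynomial.totalDegree_eq_zero_iff_eq_C] at h0
    rw [h0, MvPolynomial.map_C] at hirr
    apply hirr.not_isUnit
    apply IsUnit.map
    apply isUnit_iff_ne_zero.2
    intro h1
    apply hF0
    rw [h0]
    rw [eq_intCast, Int.cast_eq_zero] at h1
    rw [h1, map_zero]
  have hπf : π (MvPolynomial.map (Int.castRingHom ℚ) f) ≠ 0 := by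
    intro h0
    rw [h0, zero_mul] at hwf
    have : w = 0 := Subtype.ext hwf
    rw [this] at hw
    exact not_isUnit_zero hw
  have hf0 : f ≠ 0 := by
    rintro rfl
    simp at hπf
  obtain ⟨M, hM⟩ : ∃ M, M = a.natAbs * e.natAbs * len F * len f := ⟨_, rfl⟩
  rw [← hM]
  have hlF : 1 ≤ len F := one_le_len hF0
  have hlf : 1 ≤ len f := one_le_len hf0
  have ha1 : 1 ≤ a.natAbs := Int.natAbs_pos.2 ha
  have he1 : 1 ≤ e.natAbs := Int.natAbs_pos.2 he
  have hae : a.natAbs * e.natAbs ≤ M := by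
    rw [hM, mul_assoc (a.natAbs * e.natAbs)]
    exact Nat.le_mul_of_pos_right _ (Nat.mul_pos hlF hlf)
  have hMF : len F ≤ M := by
    rw [hM]
    calc len F ≤ a.natAbs * e.natAbs * len F := Nat.le_mul_of_pos_left _ (Nat.mul_pos ha1 he1)
      _ ≤ _ := Nat.le_mul_of_pos_right _ hlf
  have hMf : len f ≤ M := by
    rw [hM]
    exact Nat.le_mul_of_pos_left _ (Nat.mul_pos (Nat.mul_pos ha1 he1) hlF)
  have hM1 : 1 ≤ M := hlF.trans hMF
  have hMP1 : 1 ≤ M * P := Nat.mul_pos hM1 hP1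
  obtain ⟨u, hu, hc⟩ := exists_u F hF0
  have hc' : lc F u ≠ 0 := hc
  obtain ⟨H, hH⟩ : ∃ H, H = (M * P) ^ E := ⟨_, rfl⟩
  have hH1 : 1 ≤ H := by rw [hH]; exact Nat.one_le_pow _ _ hMP1
  obtain ⟨hev, htr, hgen, hpl⟩ := Y852.FFRed.ff_reduce F hirr u hc' hd1 π hker hsurj _ _ rfl rfl
  obtain ⟨α, hα⟩ : ∃ α : L, α = π (MvPolynomial.X 1) - (u : L) * π (MvPolynomial.X 0) := ⟨_, rfl⟩
  obtain ⟨β, hβ⟩ : ∃ β : L, β = ((lc F u : ℤ) : L) * π (MvPolynomial.X 0) := ⟨_, rfl⟩
  rw [← hα, ← hβ] at hev hgen hpl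
  rw [← hα] at htr
  have hαA : α ∉ A := by
    intro h1
    have h2 : β ∈ A := mem_of_monic_root A α β (GG F u) (GG_monic hc') hev h1
    exact hA ((hpl A hQ).2 ⟨h1, h2⟩)
  have hfs : ev α β (fs u (lc F u) (n * D) D f) =
      ((lc F u : ℤ) : L) ^ (n * D) * π (MvPolynomial.map (Int.castRingHom ℚ) f) := by
    rw [← eval₂_pi π f, hα, hβ]
    exact ev_fs u (lc F u) (n * D) D f hfD (Nat.le_mul_of_pos_left _ hn) _ _
  have hcL : ((lc F u : ℤ) : L) ≠ 0 := by exact_mod_cast hc'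
  have hnd : ¬ GG F u ∣ fs u (lc F u) (n * D) D f := by
    rintro ⟨q, hq⟩
    have h1 := congrArg (ev α β) hq
    rw [map_mul, hev, zero_mul, hfs] at h1
    exact mul_ne_zero (pow_ne_zero _ hcL) hπf h1
  -- the two ways to conclude
  have fin1 : (y - u * x).natAbs ≤ (C1 * H) ^ C1 →
      max x.natAbs y.natAbs ≤ ((C1 * P + E2) * M) ^ (C1 * P + E2) := by
    intro h1
    obtain ⟨hG1, -, -, -⟩ := heights n D F f hFD hfD u hu hc' hd1 M P E hP hE hM1 hMF hMf 1
      (by simpa using Nat.one_le_pow _ _ hM1)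
    rw [hH] at h1
    refine (back D hD F hFD u hu hc' hd1 M P E C1 C1 hP hM1 hE1 hC11 hG1 x y hxy h1).trans ?_
    rw [← hE2]
    refine (Nat.pow_le_pow_left (Nat.mul_le_mul_right M (Nat.le_add_right _ E2)) _).trans ?_
    apply Nat.pow_le_pow_right _ (Nat.le_add_left _ _)
    exact Nat.mul_pos (Nat.add_pos_left (Nat.mul_pos hC11 hP1) _) hM1
  have fin2 : ∀ N, 1 ≤ c1 N → (y - u * x).natAbs ≤ (c1 N * H) ^ C1 →
      max x.natAbs y.natAbs ≤ (c1 N * P * M) ^ (C1 * P + E2) := by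
    intro N hN h1
    obtain ⟨hG1, -, -, -⟩ := heights n D F f hFD hfD u hu hc' hd1 M P E hP hE hM1 hMF hMf 1
      (by simpa using Nat.one_le_pow _ _ hM1)
    rw [hH] at h1
    refine (back D hD F hFD u hu hc' hd1 M P E C1 (c1 N) hP hM1 hE1 hN hG1 x y hxy h1).trans ?_
    rw [← hE2]
    apply Nat.pow_le_pow_right _ (Nat.le_add_left _ _)
    exact Nat.mul_pos (Nat.mul_pos hN hP1) hM1
  by_cases hfz : MvPolynomial.eval ![x, y] f = 0
  · left
    apply fin1
    obtain ⟨-, hG2, hf2, -⟩ := heights n D F f hFD hfD u hu hc' hd1 M P E hP hE hM1 hMF hMf 1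
      (by simpa using Nat.one_le_pow _ _ hM1)
    rw [← hH] at hG2 hf2
    exact (zero_case n D hn F f hirr hFD hfD u hc' hd1 H hH1 hG2 hf2 hnd x y hxy hfz).trans
      (zero_num D H C1 hH1 (by rw [hC1]; omega))
  · obtain ⟨d, s, hds, hdd, hd0⟩ := TC.desc n hn a e z _ g ha he hfz hfg hp
    have hdM : d.natAbs ≤ M ^ (n - 1) := by
      have h1 : d.natAbs ∣ (a.natAbs * e.natAbs) ^ (n - 1) := by
        have := Int.natAbs_dvd_natAbs.2 hdd
        rwa [Int.natAbs_pow, Int.natAbs_mul] at this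
      exact (Nat.le_of_dvd (Nat.pow_pos (Nat.mul_pos ha1 he1)) h1).trans
        (Nat.pow_le_pow_left hae _)
    obtain ⟨-, hG2, hf2, hf3⟩ := heights n D F f hFD hfD u hu hc' hd1 M P E hP hE hM1 hMF hMf d hdM
    rw [← hH] at hG2 hf2 hf3
    obtain ⟨k, hk⟩ : ∃ k, F.totalDegree = k + 1 := ⟨F.totalDegree - 1, by omega⟩
    have hkD : k ∈ Finset.range D := Finset.mem_range.2 (by omega)
    have hdL : (d : L) ≠ 0 := by exact_mod_cast hd0
    -- the unit
    obtain ⟨dA, hdA⟩ : ∃ dA : A, dA = ⟨algebraMap ℚ L ((d : ℚ)⁻¹), hQ _⟩ := ⟨_, rfl⟩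
    have hdA1 : dA * (d : A) = 1 := by
      apply Subtype.ext
      rw [hdA]
      push_cast
      simp only [map_intCast]
      exact inv_mul_cancel₀ hdL
    have hdAu : IsUnit dA := IsUnit.of_mul_eq_one _ hdA1
    have hres : IsLocalRing.residue A (w * dA) =
        IsLocalRing.residue A w / (d : IsLocalRing.ResidueField A) := by
      have h1 : IsLocalRing.residue A dA * (d : IsLocalRing.ResidueField A) = 1 := by
        rw [← map_intCast (IsLocalRing.residue A) d, ← map_mul, hdA1, map_one]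
      rw [map_mul, div_eq_mul_inv, eq_inv_of_mul_eq_one_left h1]
    have hunit : ((w * dA : A) : L) = ev α β (fs u (lc F u) (n * D) D f) / (d : L) *
        (t / ((lc F u : ℤ) : L) ^ D) ^ n := by
      rw [hfs]
      push_cast
      rw [hwf, hdA]
      simp only [map_inv₀, map_intCast]
      rw [div_pow, ← pow_mul, mul_comm D n]
      field_simp
    have hirr' : ¬ Irreducible (X ^ n - C (IsLocalRing.residue A (w * dA))) →
        Irreducible (X ^ n - C (ev α β (fs u (lc F u) (n * D) D f) / (d : L))) := by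
      intro h1
      rw [hres] at h1
      have h2 := irr_scale n _ (((lc F u : ℤ) : L) ^ D) (pow_ne_zero _ hcL) (hcov d hdd h1)
      rw [hfs]
      convert h2 using 3
      rw [← pow_mul, mul_comm D n]
      ring
    have hev0 : ev (y - u * x) (lc F u * x) (GG F u) = 0 := by
      have h1 := ev_f2 (S := ℤ) u F x y
      rw [eval₂_int, hxy] at h1
      have h2 : ev (y - u * x) x (F2 F u) = 0 := h1
      rw [ev_GG hc' hd1, h2, mul_zero]
    have hevf : ev (y - u * x) (lc F u * x) (fs u (lc F u) (n * D) D f) =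
        d * (lc F u ^ D * s) ^ n := by
      have h2 := ev_fs (S := ℤ) u (lc F u) (n * D) D f hfD (Nat.le_mul_of_pos_left _ hn) x y
      rw [eval₂_int, hds] at h2
      have h3 : ev (y - u * x) (lc F u * x) (fs u (lc F u) (n * D) D f) =
          (lc F u) ^ (n * D) * (d * s ^ n) := by simpa using h2
      rw [h3, mul_pow, ← pow_mul, mul_comm D n]
      ring
    have hGTD := GG_TD hc'
    rcases hmain k (GG F u) (fs u (lc F u) (n * D) D f) (GG_monic hc')
      (by rw [GG_natDegree hc', hk]) (fun j => by rw [← hk]; exact (hGTD.2 j).trans (Nat.sub_le _ _))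
      (fs_natDegree _ _ _ _ _) (fs_ID _ _ _ _ _ hfD) (GG_irr F u hc' hd1 hirr) H d hH1 hd0 hG2 hf3
      L α β htr hev hgen A hQ hαA (t / ((lc F u : ℤ) : L) ^ D) (w * dA)
      (div_ne_zero ht (pow_ne_zero _ hcL)) (hw.mul hdAu) hunit hirr' (y - u * x) (lc F u * x)
      (lc F u ^ D * s) hev0 hevf with h1 | ⟨h1, ι, η, h2, hfd, h3⟩
    · left
      apply fin1
      have h4 : Ck k ≤ C1 := by
        rw [hC1]
        exact (Finset.single_le_sum (f := Ck) (fun _ _ => Nat.zero_le _) hkD).trans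
          (Nat.le_add_right _ _)
      refine h1.trans ((Nat.pow_le_pow_left (Nat.mul_le_mul_right _ h4) _).trans ?_)
      exact Nat.pow_le_pow_right (Nat.mul_pos hC11 hH1) h4
    · right
      refine ⟨d, hdd, by rw [← hres]; exact h1, ι, η, ?_, hfd, ?_⟩
      · rw [h2, hres, map_div₀, map_intCast]
        field_simp
      · rcases h3 with h3 | h3
        · exact Or.inl h3
        · right
          obtain ⟨N, hN⟩ : ∃ N, N = IntermediateField.adjoin ℚ (Set.range ι ∪ {η}) := ⟨_, rfl⟩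
          rw [← hN] at h3 ⊢
          have h4 : ck k N ≤ c1 N := by
            rw [hc1]
            exact Finset.single_le_sum (f := fun k => ck k N) (fun _ _ => Nat.zero_le _) hkD
          have h5 : Ck k ≤ C1 := by
            rw [hC1]
            exact (Finset.single_le_sum (f := Ck) (fun _ _ => Nat.zero_le _) hkD).trans
              (Nat.le_add_right _ _)
          have h6 : 1 ≤ c1 N := (hck k N).trans h4
          apply fin2 N h6
          refine h3.trans ((Nat.pow_le_pow_left (Nat.mul_le_mul_right _ h4) _).trans ?_)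
          exact Nat.pow_le_pow_right (Nat.mul_pos h6 hH1) h5

end Pool.Agent.K1H93.TG
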