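import Pool.Agent.K1H93.TG.Plc

set_option autoImplicit false

/-! The residue field of the place above `A` when the reduction of `X ^ n - u` is irreducible. -/

open Polynomial IntermediateField

namespace Pool.Agent.K1H93.TG

variable {L E : Type} [Field L] [Field E] [Algebra L E]

lemma Psi_mem (A : ValuationSubring L) (A1 : ValuationSubring E) (θ : E)
    (hA : ∀ z : A, algebraMap L E (z : L) ∈ A1) (hθ : θ ∈ A1) (W : A[X]) : Psi A θ W ∈ A1 := by
  induction W using Polynomial.induction_on' with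
  | add p q hp hq => rw [map_add]; exact add_mem hp hq
  | monomial n a =>
    rw [← C_mul_X_pow_eq_monomial, map_mul, map_pow, Psi_C, Psi_X]
    exact mul_mem (hA a) (pow_mem hθ n)

lemma mul_nonunits (A1 : ValuationSubring E) {z θ : E} (hz : z ∈ A1) (hθ : θ ∈ A1.nonunits) :
    z * θ ∈ A1.nonunits := by
  rw [ValuationSubring.mem_nonunits_iff] at hθ ⊢
  rw [map_mul]
  have h1 := (A1.valuation_le_one_iff z).2 hz
  calc A1.valuation z * A1.valuation θ ≤ 1 * A1.valuation θ := mul_le_mul_left h1 _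
    _ = A1.valuation θ := one_mul _
    _ < 1 := hθ

lemma one_notMem (A1 : ValuationSubring E) : (1 : E) ∉ A1.nonunits := by
  intro h
  rw [ValuationSubring.mem_nonunits_iff, map_one] at h
  exact lt_irrefl _ h

lemma dvd_of_nonunit (A : ValuationSubring L) (A1 : ValuationSubring E) (θ : E)
    (hA : ∀ z : A, algebraMap L E (z : L) ∈ A1) (hθ : θ ∈ A1)
    (φ : (IsLocalRing.ResidueField A)[X]) (hφ : Irreducible φ)
    (h : ∀ W : A[X], φ ∣ W.map (IsLocalRing.residue A) → Psi A θ W ∈ A1.nonunits) (W : A[X])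
    (hW : Psi A θ W ∈ A1.nonunits) : φ ∣ W.map (IsLocalRing.residue A) := by
  by_contra hcon
  obtain ⟨a, b, hab⟩ := (hφ.coprime_iff_not_dvd).2 hcon
  obtain ⟨T, hT⟩ := Polynomial.map_surjective (IsLocalRing.residue A)
    IsLocalRing.residue_surjective b
  have h1 := h (1 - T * W) (by
    rw [Polynomial.map_sub, Polynomial.map_one, Polynomial.map_mul, hT, ← hab,
      add_sub_cancel_right]
    exact dvd_mul_left _ _)
  have h2 : Psi A θ (T * W) ∈ A1.nonunits := by
    rw [map_mul]
    exact mul_nonunits A1 (Psi_mem A A1 θ hA hθ T) hW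
  rw [map_sub, map_one] at h1
  have h3 := add_mem h1 h2
  rw [sub_add_cancel] at h3
  exact one_notMem A1 h3

/-- the residue field is generated by `θ` -/
lemma res_span (A : ValuationSubring L) (A1 : ValuationSubring E) (n : ℕ) (hn : 1 ≤ n) (u : A)
    (θ : E) (hθn : θ ^ n = algebraMap L E (u : L)) (hrep : ∀ b : E, ∃ p : L[X], aeval θ p = b)
    (hA : ∀ z : A, algebraMap L E (z : L) ∈ A1) (hθ : θ ∈ A1)
    (hirr : Irreducible (X ^ n - C (IsLocalRing.residue A u)))
    (h : ∀ W : A[X], X ^ n - C (IsLocalRing.residue A u) ∣ W.map (IsLocalRing.residue A) →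
      Psi A θ W ∈ A1.nonunits) (b : E) (hb : b ∈ A1) :
    ∃ W : A[X], b - Psi A θ W ∈ A1.nonunits := by
  classical
  obtain ⟨p0, hp0⟩ := hrep b
  obtain ⟨p, hp⟩ : ∃ p : L[X], p = p0 %ₘ (X ^ n - C (u : L)) := ⟨_, rfl⟩
  have hmon : (X ^ n - C (u : L)).Monic := monic_X_pow_sub_C _ (by omega)
  have hpb : aeval θ p = b := by
    have h1 := modByMonic_add_div p0 (X ^ n - C (u : L))
    rw [← hp0]
    conv_rhs => rw [← h1]
    rw [map_add, map_mul, map_sub, map_pow, aeval_X, aeval_C, hθn, sub_self, zero_mul, add_zero,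
      hp]
  have hpd : ∀ i, n ≤ i → p.coeff i = 0 := by
    intro i hi
    apply coeff_eq_zero_of_degree_lt
    have h1 : p.degree < (X ^ n - C (u : L)).degree := by
      rw [hp]; exact degree_modByMonic_lt _ hmon
    rw [degree_X_pow_sub_C (by omega)] at h1
    exact h1.trans_le (by exact_mod_cast hi)
  have hpsum : p = ∑ i ∈ Finset.range n, C (p.coeff i) * X ^ i := by
    ext i
    rw [finsetSum_coeff]
    simp only [coeff_C_mul, coeff_X_pow]
    by_cases hi : i < n
    · rw [Finset.sum_eq_single i]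
      · rw [if_pos rfl, mul_one]
      · intro k _ hk
        rw [if_neg (Ne.symm hk), mul_zero]
      · intro hk
        exact absurd (Finset.mem_range.2 hi) hk
    · rw [hpd i (by omega), Finset.sum_eq_zero]
      intro k hk
      rw [Finset.mem_range] at hk
      rw [if_neg (by omega), mul_zero]
  by_cases hall : ∀ i, p.coeff i ∈ A
  · refine ⟨∑ i ∈ Finset.range n, C ⟨p.coeff i, hall i⟩ * X ^ i, ?_⟩
    have h1 : Psi A θ (∑ i ∈ Finset.range n, C ⟨p.coeff i, hall i⟩ * X ^ i) = b := by
      rw [← hpb]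
      conv_rhs => rw [hpsum]
      rw [map_sum, map_sum]
      apply Finset.sum_congr rfl
      intro i _
      rw [map_mul, map_pow, Psi_C, Psi_X, map_mul, map_pow, aeval_C, aeval_X]
    rw [h1, sub_self]
    exact A1.nonunits.zero_mem
  · exfalso
    push Not at hall
    obtain ⟨i0, hi0⟩ := hall
    obtain ⟨j, hj, hjmax⟩ := Finset.exists_max_image (Finset.range n)
      (fun i => A.valuation (p.coeff i)) ⟨0, Finset.mem_range.2 hn⟩
    have hi0n : i0 < n := by
      by_contra hc
      rw [hpd i0 (by omega)] at hi0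
      exact hi0 A.zero_mem
    have hjA : p.coeff j ∉ A := by
      intro hc
      apply hi0
      rw [← A.valuation_le_one_iff] at hc ⊢
      exact (hjmax i0 (Finset.mem_range.2 hi0n)).trans hc
    have hj0 : p.coeff j ≠ 0 := by
      intro hc
      rw [hc] at hjA
      exact hjA A.zero_mem
    have hdiv : ∀ i, p.coeff i / p.coeff j ∈ A := by
      intro i
      by_cases hi : i < n
      · rw [← A.valuation_le_one_iff, map_div₀]
        have h1 := hjmax i (Finset.mem_range.2 hi)
        have h2 : A.valuation (p.coeff j) ≠ 0 := (A.valuation.ne_zero_iff).2 hj0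
        exact div_le_one_of_le₀ h1 zero_le
      · rw [hpd i (by omega), zero_div]; exact A.zero_mem
    obtain ⟨W, hW⟩ : ∃ W : A[X], W = ∑ i ∈ Finset.range n, C ⟨_, hdiv i⟩ * X ^ i := ⟨_, rfl⟩
    have h0 : b = ∑ i ∈ Finset.range n, algebraMap L E (p.coeff i) * θ ^ i := by
      rw [← hpb]
      conv_lhs => rw [hpsum]
      rw [map_sum]
      apply Finset.sum_congr rfl
      intro i _
      rw [map_mul, map_pow, aeval_C, aeval_X]
    have h1 : Psi A θ W = b * algebraMap L E (p.coeff j)⁻¹ := by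
      rw [h0, hW, map_sum, Finset.sum_mul]
      apply Finset.sum_congr rfl
      intro i _
      rw [map_mul, map_pow, Psi_C, Psi_X]
      simp only [div_eq_mul_inv, map_mul]
      ring
    have h2 : Psi A θ W ∈ A1.nonunits := by
      rw [h1]
      apply mul_nonunits A1 hb
      exact nonunit_of_max A A1 θ _ h _ (A.inv_mem_nonunits_iff.2 (Or.inr hjA))
    have h3 := dvd_of_nonunit A A1 θ hA hθ _ hirr h W h2
    have h4 : (W.map (IsLocalRing.residue A)).coeff j = 1 := by
      rw [coeff_map, hW, finsetSum_coeff, Finset.sum_eq_single j]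
      · rw [coeff_C_mul, coeff_X_pow, if_pos rfl, mul_one]
        have : (⟨p.coeff j / p.coeff j, hdiv j⟩ : A) = 1 := Subtype.ext (div_self hj0)
        rw [this, map_one]
      · intro k _ hk
        rw [coeff_C_mul, coeff_X_pow, if_neg (Ne.symm hk), mul_zero]
      · intro hc; exact absurd hj hc
    have h5 : (W.map (IsLocalRing.residue A)).natDegree < n := by
      rw [Nat.lt_iff_add_one_le]
      refine Nat.succ_le_of_lt (lt_of_le_of_lt (natDegree_map_le) ?_)
      rw [hW]
      refine lt_of_le_of_lt (natDegree_sum_le_of_forall_le (n := n - 1) _ _ ?_) (by omega)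
      intro i hi
      rw [Finset.mem_range] at hi
      exact (natDegree_C_mul_X_pow_le _ _).trans (by omega)
    have h6 : W.map (IsLocalRing.residue A) ≠ 0 := by
      intro hc
      rw [hc, coeff_zero] at h4
      exact zero_ne_one h4
    have h7 := natDegree_le_of_dvd h3 h6
    rw [natDegree_X_pow_sub_C] at h7
    omega

/-- the embedding of the residue field -/
theorem residue_embed (A : ValuationSubring L) (A1 : ValuationSubring E) (n : ℕ) (hn : 1 ≤ n)
    (u : A) (θ : E) (hθn : θ ^ n = algebraMap L E (u : L))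
    (hrep : ∀ b : E, ∃ p : L[X], aeval θ p = b)
    (hA : ∀ z : A, algebraMap L E (z : L) ∈ A1) (hθ : θ ∈ A1)
    (hirr : Irreducible (X ^ n - C (IsLocalRing.residue A u)))
    (h : ∀ W : A[X], X ^ n - C (IsLocalRing.residue A u) ∣ W.map (IsLocalRing.residue A) →
      Psi A θ W ∈ A1.nonunits)
    (g : ℚ[X]) (e : IsLocalRing.ResidueField A1 ≃+* AdjoinRoot g) (η0 : ℝ) (hη0 : aeval η0 g = 0) :
    ∃ (ι : IsLocalRing.ResidueField A →+* ℝ) (η : ℝ), η ^ n = ι (IsLocalRing.residue A u) ∧
      IntermediateField.adjoin ℚ (Set.range ι ∪ {η}) = ℚ⟮η0⟯ := by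
  have hη0' : eval₂ (algebraMap ℚ ℝ) η0 g = 0 := hη0
  obtain ⟨l, hl⟩ : ∃ l : AdjoinRoot g →+* ℝ, l = AdjoinRoot.lift (algebraMap ℚ ℝ) η0 hη0' :=
    ⟨_, rfl⟩
  obtain ⟨ι1, hι1⟩ : ∃ ι1 : IsLocalRing.ResidueField A1 →+* ℝ, ι1 = l.comp e.toRingHom :=
    ⟨_, rfl⟩
  obtain ⟨j, hj⟩ : ∃ j : A →+* A1, ∀ z : A, ((j z : A1) : E) = algebraMap L E (z : L) :=
    ⟨((algebraMap L E).comp A.subtype).codRestrict A1.toSubring hA, fun z => rfl⟩
  have hjm : ∀ z ∈ IsLocalRing.maximalIdeal A, IsLocalRing.residue A1 (j z) = 0 := by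
    intro z hz
    rw [IsLocalRing.residue_eq_zero_iff, ← ValuationSubring.coe_mem_nonunits_iff, hj]
    exact nonunit_of_max A A1 θ _ h _ (ValuationSubring.coe_mem_nonunits_iff.2 hz)
  obtain ⟨ι, hι⟩ : ∃ ι : IsLocalRing.ResidueField A →+* ℝ, ∀ z : A,
      ι (IsLocalRing.residue A z) = ι1 (IsLocalRing.residue A1 (j z)) :=
    ⟨Ideal.Quotient.lift (IsLocalRing.maximalIdeal A) (ι1.comp ((IsLocalRing.residue A1).comp j))
      (fun z hz => by rw [RingHom.comp_apply, RingHom.comp_apply, hjm z hz, map_zero]),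
      fun z => rfl⟩
  refine ⟨ι, ι1 (IsLocalRing.residue A1 ⟨θ, hθ⟩), ?_, ?_⟩
  · rw [hι, ← map_pow, ← map_pow]
    congr 2
    apply Subtype.ext
    rw [hj, ← hθn]; rfl
  · have hl_mem : ∀ z : AdjoinRoot g, l z ∈ ℚ⟮η0⟯ := by
      intro z
      obtain ⟨p, rfl⟩ := AdjoinRoot.mk_surjective z
      rw [hl, AdjoinRoot.lift_mk]
      have : eval₂ (algebraMap ℚ ℝ) η0 p = aeval η0 p := rfl
      rw [this]
      have h1 : aeval η0 p ∈ Algebra.adjoin ℚ {η0} := aeval_mem_adjoin_singleton ℚ η0
      exact IntermediateField.algebra_adjoin_le_adjoin ℚ {η0} h1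
    have hι1_mem : ∀ z, ι1 z ∈ ℚ⟮η0⟯ := by
      intro z
      rw [hι1]
      exact hl_mem _
    apply le_antisymm
    · rw [IntermediateField.adjoin_le_iff]
      rintro z (⟨w, rfl⟩ | hz)
      · obtain ⟨w, rfl⟩ := IsLocalRing.residue_surjective w
        rw [hι]
        exact hι1_mem _
      · rw [Set.mem_singleton_iff.1 hz]
        exact hι1_mem _
    · rw [IntermediateField.adjoin_simple_le_iff]
      obtain ⟨k, hk⟩ : ∃ k, ι1 k = η0 := by
        refine ⟨e.symm (AdjoinRoot.root g), ?_⟩
        rw [hι1, RingHom.comp_apply, RingEquiv.toRingHom_eq_coe, RingEquiv.coe_toRingHom,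
          RingEquiv.apply_symm_apply, hl, AdjoinRoot.lift_root]
      obtain ⟨b, rfl⟩ := IsLocalRing.residue_surjective k
      obtain ⟨W, hW⟩ := res_span A A1 n hn u θ hθn hrep hA hθ hirr h (b : E) b.2
      obtain ⟨Ψ1, hΨ1⟩ : ∃ Ψ1 : A[X] →+* A1, Ψ1 = eval₂RingHom j ⟨θ, hθ⟩ := ⟨_, rfl⟩
      have hΨ : ∀ W, ((Ψ1 W : A1) : E) = Psi A θ W := by
        have h1 : A1.subtype.comp Ψ1 = Psi A θ := by
          apply Polynomial.ringHom_ext
          · intro z
            rw [Psi_C, RingHom.comp_apply, hΨ1, coe_eval₂RingHom, eval₂_C]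
            exact hj z
          · rw [Psi_X, RingHom.comp_apply, hΨ1, coe_eval₂RingHom, eval₂_X]; rfl
        intro W
        exact congrArg (fun φ : A[X] →+* E => φ W) h1
      have h2 : IsLocalRing.residue A1 b = IsLocalRing.residue A1 (Ψ1 W) := by
        rw [← sub_eq_zero, ← map_sub, IsLocalRing.residue_eq_zero_iff,
          ← ValuationSubring.coe_mem_nonunits_iff]
        have : ((b - Ψ1 W : A1) : E) = (b : E) - Psi A θ W := by rw [← hΨ]; rfl
        rw [this]
        exact hW
      rw [← hk, h2]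
      have h3 : ∀ W, ι1 (IsLocalRing.residue A1 (Ψ1 W)) = eval₂ (ι.comp (IsLocalRing.residue A))
          (ι1 (IsLocalRing.residue A1 ⟨θ, hθ⟩)) W := by
        have h4 : ι1.comp ((IsLocalRing.residue A1).comp Ψ1) =
            eval₂RingHom (ι.comp (IsLocalRing.residue A))
              (ι1 (IsLocalRing.residue A1 ⟨θ, hθ⟩)) := by
          apply Polynomial.ringHom_ext
          · intro z
            rw [RingHom.comp_apply, RingHom.comp_apply, hΨ1, coe_eval₂RingHom, eval₂_C,
              coe_eval₂RingHom, eval₂_C, RingHom.comp_apply, hι]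
          · rw [RingHom.comp_apply, RingHom.comp_apply, hΨ1, coe_eval₂RingHom, eval₂_X,
              coe_eval₂RingHom, eval₂_X]
        intro W
        exact congrArg (fun φ : A[X] →+* ℝ => φ W) h4
      rw [h3, eval₂_eq_sum_range]
      apply sum_mem
      intro i _
      apply mul_mem
      · apply IntermediateField.subset_adjoin
        left
        exact ⟨_, rfl⟩
      · apply pow_mem
        apply IntermediateField.subset_adjoin
        right
        exact Set.mem_singleton _

end Pool.Agent.K1H93.TG
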