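import Pool.Agent.K1H93.TG.Cov
import Pool.Agent.K1H93.TG.Rsd

set_option autoImplicit false

/-! The bound for the integer points that lift to a radical covering, for monic curves. -/

open Polynomial IntermediateField

namespace Pool.Agent.K1H93.TG

open Pool.Agent.H322R2

lemma pow_split {κ : Type} [Field κ] [CharZero κ] (n : ℕ) (hn : 1 ≤ n) (w : κ) (hw : w ≠ 0)
    (h : ¬ Irreducible (X ^ n - C w)) :
    ∃ φ ψ : κ[X], φ * ψ = X ^ n - C w ∧ ¬ IsUnit φ ∧ ¬ IsUnit ψ ∧ IsCoprime φ ψ := by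
  have hu : ¬ IsUnit (X ^ n - C w) := by
    intro hu
    have := natDegree_eq_zero_of_isUnit hu
    rw [natDegree_X_pow_sub_C] at this
    omega
  rw [irreducible_iff] at h
  push Not at h
  obtain ⟨φ, ψ, h1, h2, h3⟩ := h hu
  refine ⟨φ, ψ, h1.symm, h2, h3, ?_⟩
  have hsep : (X ^ n - C w : κ[X]).Separable :=
    separable_X_pow_sub_C _ (by exact_mod_cast (by omega : n ≠ 0)) hw
  rw [h1] at hsep
  exact hsep.isCoprime

lemma irr_scale {L : Type} [Field L] (n : ℕ) (z t : L) (ht : t ≠ 0)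
    (h : Irreducible (X ^ n - C z)) : Irreducible (X ^ n - C (z * t ^ n)) := by
  obtain ⟨inv⟩ : Nonempty (Invertible t) := ⟨invertibleOfNonzero ht⟩
  have h1 : (Polynomial.algEquivCMulXAddC t 0) (X ^ n - C (z * t ^ n) : L[X])
      = C (t ^ n) * (X ^ n - C z) := by
    rw [algEquivCMulXAddC_apply, map_sub, map_pow, aeval_X, aeval_C, map_zero, add_zero, mul_pow,
      ← C_pow, mul_sub, ← C_mul, Polynomial.algebraMap_eq, mul_comm z]
  rw [← MulEquiv.irreducible_iff (Polynomial.algEquivCMulXAddC t 0), h1,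
    irreducible_isUnit_mul (isUnit_C.2 (isUnit_iff_ne_zero.2 (pow_ne_zero _ ht)))]
  exact h

lemma irr_of_residue {L : Type} [Field L] (A : ValuationSubring L) (n : ℕ) (hn : 1 ≤ n) (u : A)
    (h : Irreducible (X ^ n - C (IsLocalRing.residue A u))) :
    Irreducible (X ^ n - C (u : L)) := by
  have hm : (X ^ n - C u : A[X]).Monic := monic_X_pow_sub_C u (by omega)
  have h1 : Irreducible (X ^ n - C u : A[X]) := by
    apply hm.irreducible_of_irreducible_map (IsLocalRing.residue A)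
    rw [Polynomial.map_sub, Polynomial.map_pow, map_X, map_C]
    exact h
  have h2 := (hm.irreducible_iff_irreducible_map_fraction_map (K := L)).1 h1
  rw [Polynomial.map_sub, Polynomial.map_pow, map_X, map_C] at h2
  exact h2

lemma residue_charZero {L : Type} [Field L] [Algebra ℚ L] (A : ValuationSubring L)
    (hq : ∀ q : ℚ, algebraMap ℚ L q ∈ A) : CharZero (IsLocalRing.ResidueField A) := by
  have j : ℚ →+* A := (algebraMap ℚ L).codRestrict A.toSubring hq
  exact charZero_of_injective_ringHom ((IsLocalRing.residue A).comp j).injective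

theorem core (n D K m B : ℕ) (hn : 1 ≤ n) (hD : 1 ≤ D) :
    ∃ (C0 : ℕ) (c0 : IntermediateField ℚ ℝ → ℕ), 1 ≤ C0 ∧ (∀ M, 1 ≤ c0 M) ∧
      ∀ F f : ℤ[X][X], F.Monic → F.natDegree = D → ID B F → f.natDegree ≤ K → ID m f →
      Irreducible (F.map iq) → ∀ (H : ℕ) (d : ℤ), 1 ≤ H → d ≠ 0 → pn (pn zn) F ≤ H →
      pn (pn zn) (C (C (d ^ (n - 1))) * f) ≤ H →
      ∀ (L : Type) [Field L] [Algebra ℚ L] (α β : L), Transcendental ℚ α → ev α β F = 0 →
      (∀ z : L, ∃ w1 ∈ Algebra.adjoin ℚ {α, β}, ∃ w2 ∈ Algebra.adjoin ℚ {α, β},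
        w2 ≠ 0 ∧ w2 * z = w1) →
      ∀ A : ValuationSubring L, (∀ q : ℚ, algebraMap ℚ L q ∈ A) → α ∉ A →
      ∀ (t : L) (u : A), t ≠ 0 → IsUnit u → (u : L) = ev α β f / (d : L) * t ^ n →
      (¬ Irreducible (X ^ n - C (IsLocalRing.residue A u)) →
        Irreducible (X ^ n - C (ev α β f / (d : L)))) →
      ∀ a b s : ℤ, ev a b F = 0 → ev a b f = d * s ^ n →
      a.natAbs ≤ (C0 * H) ^ C0 ∨
      (Irreducible (X ^ n - C (IsLocalRing.residue A u)) ∧
        ∃ (ι : IsLocalRing.ResidueField A →+* ℝ) (η : ℝ), η ^ n = ι (IsLocalRing.residue A u) ∧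
          FiniteDimensional ℚ (IntermediateField.adjoin ℚ (Set.range ι ∪ {η})) ∧
          (Module.finrank ℚ (IntermediateField.adjoin ℚ (Set.range ι ∪ {η})) ≤ 2 ∨
            a.natAbs ≤ (c0 (IntermediateField.adjoin ℚ (Set.range ι ∪ {η})) * H) ^ C0)) := by
  obtain ⟨C0, c0, hC0, hc0, hmain⟩ := cov_bound n D K m B hn hD
  refine ⟨C0, c0, hC0, hc0, ?_⟩
  intro F f hFm hFD hFB hfK hfm hFi H d hH hd hFH hfH L _ _ α β hα hF hgen A hQ hαA t u ht hu hut
    hirr a b s hab hs
  have hchar : CharZero L := algebraRat.charZero L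
  have hdL : (d : L) ≠ 0 := by exact_mod_cast hd
  have hirrL : Irreducible (X ^ n - C (u : L)) := by
    by_cases h : Irreducible (X ^ n - C (IsLocalRing.residue A u))
    · exact irr_of_residue A n hn u h
    · rw [hut]
      exact irr_scale n _ t ht (hirr h)
  obtain ⟨f', hf'⟩ : ∃ f', f' = C (C (d ^ (n - 1))) * f := ⟨_, rfl⟩
  have hf'K : f'.natDegree ≤ K := by
    rw [hf']; exact (natDegree_C_mul_le _ _).trans hfK
  have hf'm : ID m f' := by
    intro j
    rw [hf', coeff_C_mul]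
    exact (natDegree_C_mul_le _ _).trans (hfm j)
  have hev' : ∀ {S : Type} [CommRing S] (x y : S), ev x y f' = (d : S) ^ (n - 1) * ev x y f := by
    intro S _ x y
    rw [hf', map_mul, ev_C, evf_C]
    push_cast; ring
  have hfact : Fact (Irreducible (X ^ n - C (u : L))) := ⟨hirrL⟩
  obtain ⟨θ, hθ⟩ : ∃ θ : AdjoinRoot (X ^ n - C (u : L)), θ = AdjoinRoot.root _ := ⟨_, rfl⟩
  have haeval : ∀ p : L[X], aeval θ p = AdjoinRoot.mk (X ^ n - C (u : L)) p := by
    intro p; rw [hθ, AdjoinRoot.aeval_eq]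
  have hθn : θ ^ n = algebraMap L (AdjoinRoot (X ^ n - C (u : L))) (u : L) := by
    have h1 : aeval θ (X ^ n - C (u : L)) = 0 := by
      rw [haeval, AdjoinRoot.mk_self]
    rw [map_sub, map_pow, aeval_X, aeval_C, sub_eq_zero] at h1
    exact h1
  have hmon : (X ^ n - C (u : L)).Monic := monic_X_pow_sub_C _ (by omega)
  have hfin : Module.finrank L (AdjoinRoot (X ^ n - C (u : L))) = n := by
    rw [(AdjoinRoot.powerBasis' hmon).finrank, AdjoinRoot.powerBasis'_dim, natDegree_X_pow_sub_C]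
  have hker : ∀ p : L[X], aeval θ p = 0 → X ^ n - C (u : L) ∣ p := by
    intro p hp
    rwa [haeval, AdjoinRoot.mk_eq_zero] at hp
  have hrep : ∀ b : AdjoinRoot (X ^ n - C (u : L)), ∃ p : L[X], aeval θ p = b := by
    intro b
    obtain ⟨p, hp⟩ := AdjoinRoot.mk_surjective b
    exact ⟨p, by rw [haeval]; exact hp⟩
  obtain ⟨σ, hσ⟩ : ∃ σ : AdjoinRoot (X ^ n - C (u : L)),
      σ = algebraMap L _ ((d : L) / t) * θ := ⟨_, rfl⟩
  have hkey : ((d : L) / t) ^ n * (u : L) = ev α β f' := by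
    rw [hev', hut]
    have h1 : (d : L) ^ n = d ^ (n - 1) * d := by rw [← pow_succ]; congr 1; omega
    have h2 : t ^ n ≠ 0 := pow_ne_zero _ ht
    rw [div_pow, h1]
    field_simp
  have hσn : σ ^ n = algebraMap L _ (ev α β f') := by
    rw [hσ, mul_pow, ← map_pow, hθn, ← map_mul, hkey]
  have htop : L⟮σ⟯ = ⊤ := by
    rw [eq_top_iff]
    rintro z -
    obtain ⟨p, rfl⟩ := hrep z
    have h1 : θ ∈ L⟮σ⟯ := by
      have h2 : θ = algebraMap L _ (t / (d : L)) * σ := by
        rw [hσ, ← mul_assoc, ← map_mul]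
        have h3 : t / (d : L) * (d / t) = 1 := by field_simp
        rw [h3, map_one, one_mul]
      rw [h2]
      exact mul_mem (L⟮σ⟯.algebraMap_mem _) (mem_adjoin_simple_self L σ)
    rw [aeval_def, eval₂_eq_sum_range]
    exact sum_mem fun i _ => mul_mem (L⟮σ⟯.algebraMap_mem _) (pow_mem h1 i)
  have hs' : (d * s) ^ n = ev a b f' := by
    rw [hev', hs, mul_pow]
    have h1 : d ^ n = d ^ (n - 1) * d := by rw [← pow_succ]; congr 1; omega
    rw [h1]; push_cast; ring
  rw [← hf'] at hfH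
  rcases hmain F f' hFm hFD hFB hf'K hf'm hFi H hH hFH hfH L _ α β hα hF hgen σ hσn hfin htop
    a b (d * s) hab hs' with h | ⟨A', hA', g, hgm, hgi, ⟨e⟩, η0, hη0, h⟩
  · exact Or.inl h
  · have huniq : ∀ A1 : ValuationSubring (AdjoinRoot (X ^ n - C (u : L))),
        (∀ z : A, algebraMap L _ (z : L) ∈ A1) → algebraMap L _ α ∉ A1 → A1 = A' := by
      intro A1 h1 h2
      refine hA' A1 ?_ h2
      intro q
      have h3 := h1 ⟨algebraMap ℚ L q, hQ q⟩
      rwa [← IsScalarTower.algebraMap_apply] at h3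
    have hcharκ := residue_charZero A hQ
    by_cases hi : Irreducible (X ^ n - C (IsLocalRing.residue A u))
    · right
      refine ⟨hi, ?_⟩
      obtain ⟨A1, h1, h2, h3⟩ := place_over A n hn u θ hker _ dvd_rfl hi.not_isUnit
      obtain rfl := huniq A1 h1 (notMem_of_notMem A A1 θ _ h3 α hαA)
      obtain ⟨ι, η, h4, h5⟩ := residue_embed A A1 n hn u θ hθn hrep h1 h2 hi h3 g e η0 hη0
      have hint : IsIntegral ℚ η0 := ⟨g, hgm, hη0⟩
      refine ⟨ι, η, h4, ?_, ?_⟩
      · rw [h5]; exact adjoin.finiteDimensional hint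
      rw [h5]
      rcases h with h | h
      · left
        rw [IntermediateField.adjoin.finrank hint,
          ← minpoly.eq_of_irreducible_of_monic hgi hη0 hgm]
        exact h
      · exact Or.inr h
    · exfalso
      have hu0 : IsLocalRing.residue A u ≠ 0 := by
        intro h0
        rw [IsLocalRing.residue_eq_zero_iff] at h0
        exact (IsLocalRing.mem_maximalIdeal _).1 h0 hu
      obtain ⟨φ, ψ, h1, h2, h3, h4⟩ := pow_split n hn _ hu0 hi
      exact two_places A n hn u θ hker α hαA φ ψ h1 h2 h3 h4 A' huniq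

end Pool.Agent.K1H93.TG
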