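import Pool.Agent.K1H93.TG.Main

set_option autoImplicit false

/-! The final statement. -/

open Polynomial IntermediateField

namespace Pool.Agent.K1H93.TG

open Pool.Agent.H322R2

lemma eval_dvd (F f g h : MvPolynomial (Fin 2) ℤ) (n : ℕ) (a e : ℤ)
    (hdvd : F ∣ f * g - MvPolynomial.C a * h ^ n)
    (hmem : MvPolynomial.C e ∈ Ideal.span ({F, f, g, h} : Set (MvPolynomial (Fin 2) ℤ))) (x y : ℤ)
    (hxy : MvPolynomial.eval ![x, y] F = 0) :
    MvPolynomial.eval ![x, y] f * MvPolynomial.eval ![x, y] g =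
      a * MvPolynomial.eval ![x, y] h ^ n ∧
    ∀ p : ℤ, p ∣ MvPolynomial.eval ![x, y] h → p ∣ MvPolynomial.eval ![x, y] f →
      p ∣ MvPolynomial.eval ![x, y] g → p ∣ e := by
  constructor
  · obtain ⟨q, hq⟩ := hdvd
    have h1 := congrArg (MvPolynomial.eval ![x, y]) hq
    rw [map_sub, map_mul, map_mul, map_mul, map_pow, MvPolynomial.eval_C, hxy, zero_mul,
      sub_eq_zero] at h1
    exact h1
  · intro p h1 h2 h3
    have h4 : Ideal.span ({F, f, g, h} : Set (MvPolynomial (Fin 2) ℤ)) ≤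
        Ideal.comap (MvPolynomial.eval ![x, y]) (Ideal.span {p}) := by
      rw [Ideal.span_le]
      rintro z hz
      simp only [Set.mem_insert_iff, Set.mem_singleton_iff] at hz
      rw [SetLike.mem_coe, Ideal.mem_comap, Ideal.mem_span_singleton]
      rcases hz with rfl | rfl | rfl | rfl
      · rw [hxy]; exact dvd_zero _
      · exact h2
      · exact h3
      · exact h1
    have h5 := h4 hmem
    rw [Ideal.mem_comap, Ideal.mem_span_singleton, MvPolynomial.eval_C] at h5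
    exact h5

/-- the root of an irreducible binomial has degree at least `n` -/
lemma le_finrank {κ : Type} [Field κ] (n : ℕ) (ι : κ →+* ℝ) (w : κ)
    (hirr : Irreducible (X ^ n - C w)) (η : ℝ) (hη : η ^ n = ι w) (M : IntermediateField ℚ ℝ)
    [FiniteDimensional ℚ M] (hM : η ∈ M) : n ≤ Module.finrank ℚ M := by
  have hchar : CharZero κ := ⟨fun a b h => by
    have h2 := congrArg ι h
    rw [map_natCast, map_natCast] at h2
    exact_mod_cast h2⟩
  have hint : IsIntegral ℚ (⟨η, hM⟩ : M) := Algebra.IsIntegral.isIntegral _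
  have h1 : (minpoly ℚ (⟨η, hM⟩ : M)).natDegree ≤ Module.finrank ℚ M := minpoly.natDegree_le _
  refine le_trans ?_ h1
  obtain ⟨q, hq⟩ : ∃ q : ℚ[X], q = minpoly ℚ (⟨η, hM⟩ : M) := ⟨_, rfl⟩
  have hq0 : q ≠ 0 := by rw [hq]; exact minpoly.ne_zero hint
  have hqη : aeval η q = 0 := by
    have h2 : aeval (⟨η, hM⟩ : M) q = 0 := by rw [hq]; exact minpoly.aeval _ _
    have h3 := congrArg (algebraMap M ℝ) h2
    rw [map_zero, ← aeval_algebraMap_apply] at h3
    exact h3
  rw [← hq]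
  have hdvd : X ^ n - C w ∣ q.map (algebraMap ℚ κ) := by
    by_contra hcon
    obtain ⟨u, v, huv⟩ := (hirr.coprime_iff_not_dvd).2 hcon
    have h2 := congrArg (eval₂ ι η) huv
    rw [eval₂_add, eval₂_mul, eval₂_mul, eval₂_sub, eval₂_pow, eval₂_X, eval₂_C, hη, sub_self,
      mul_zero, zero_add, eval₂_map, eval₂_one] at h2
    have h3 : eval₂ (ι.comp (algebraMap ℚ κ)) η q = 0 := by
      rw [← hqη, aeval_def]
      congr 1
      exact Subsingleton.elim _ _
    rw [h3, mul_zero] at h2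
    exact zero_ne_one h2
  have h4 := natDegree_le_of_dvd hdvd (by
    rw [Ne, Polynomial.map_eq_zero]; exact hq0)
  rwa [natDegree_X_pow_sub_C, natDegree_map] at h4

theorem fin (n D : ℕ) (hn : 1 ≤ n) :
    ∃ (C0 : ℕ) (c : IntermediateField ℚ ℝ → ℕ),
      ∀ (F f g h : MvPolynomial (Fin 2) ℤ) (a e : ℤ), F.totalDegree ≤ D → f.totalDegree ≤ D →
      Irreducible (MvPolynomial.map (Int.castRingHom ℚ) F) → a ≠ 0 → e ≠ 0 →
      F ∣ f * g - MvPolynomial.C a * h ^ n →
      MvPolynomial.C e ∈ Ideal.span ({F, f, g, h} : Set (MvPolynomial (Fin 2) ℤ)) →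
      ∀ (L : Type) [Field L] [Algebra ℚ L] (π : MvPolynomial (Fin 2) ℚ →ₐ[ℚ] L),
      (∀ w, π w = 0 ↔ MvPolynomial.map (Int.castRingHom ℚ) F ∣ w) →
      (∀ z : L, ∃ w1 w2, π w2 ≠ 0 ∧ π w2 * z = π w1) →
      ∀ A : ValuationSubring L, (∀ q : ℚ, algebraMap ℚ L q ∈ A) →
      ¬ (π (MvPolynomial.X 0) ∈ A ∧ π (MvPolynomial.X 1) ∈ A) →
      ∀ (t : L) (w : A), IsUnit w →
      (w : L) = π (MvPolynomial.map (Int.castRingHom ℚ) f) * t ^ n →
      (∀ d : ℤ, d ∣ (a * e) ^ (n - 1) →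
        Irreducible (X ^ n - C (π (MvPolynomial.map (Int.castRingHom ℚ) f) / (d : L)))) →
      ∀ x y : ℤ, MvPolynomial.eval ![x, y] F = 0 →
        max x.natAbs y.natAbs ≤ (C0 * (a.natAbs * e.natAbs * len F * len f)) ^ C0 ∨
        (∀ A' : ValuationSubring L, ((∀ q : ℚ, algebraMap ℚ L q ∈ A') ∧
          ¬ (π (MvPolynomial.X 0) ∈ A' ∧ π (MvPolynomial.X 1) ∈ A')) ↔ A' = A) ∧
        ∃ d : ℤ, d ∣ (a * e) ^ (n - 1) ∧
          Irreducible (X ^ n - C (IsLocalRing.residue A w / (d : IsLocalRing.ResidueField A))) ∧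
          ∃ (ι : IsLocalRing.ResidueField A →+* ℝ) (η : ℝ),
            (d : ℝ) * η ^ n = ι (IsLocalRing.residue A w) ∧
            FiniteDimensional ℚ (IntermediateField.adjoin ℚ (Set.range ι ∪ {η})) ∧
            (n ≤ 2 ∧ Module.finrank ℚ (IntermediateField.adjoin ℚ (Set.range ι ∪ {η})) ≤ 2 ∨
              max x.natAbs y.natAbs ≤
                (c (IntermediateField.adjoin ℚ (Set.range ι ∪ {η})) *
                  (a.natAbs * e.natAbs * len F * len f)) ^ C0) := by
  obtain ⟨C0, c, hmain⟩ := gen n (D + 1) hn (by omega)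
  choose C1 c1 hC using Pool.Agent.Y910.G.main
  obtain ⟨C2, hC2⟩ : ∃ C2, C2 = 1 + ∑ d ∈ Finset.range (D + 1), C1 d := ⟨_, rfl⟩
  refine ⟨C0 + C2, fun M => 1 + c M, ?_⟩
  intro F f g h a e hFD hfD hirr ha he hdvd hmem L _ _ π hker hsurj A hQ hA t w hw hwf hcov x y hxy
  have hF0 : F ≠ 0 := by
    rintro rfl
    rw [map_zero] at hirr
    exact hirr.ne_zero rfl
  have hw0 : (w : L) ≠ 0 := by
    intro h0
    have : w = 0 := Subtype.ext h0
    rw [this] at hw
    exact not_isUnit_zero hw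
  have ht : t ≠ 0 := by
    rintro rfl
    rw [zero_pow (by omega), mul_zero] at hwf
    exact hw0 hwf
  have hf0 : f ≠ 0 := by
    rintro rfl
    apply hw0
    rw [hwf]
    simp
  have hlF : 1 ≤ len F := one_le_len hF0
  have hlf : 1 ≤ len f := one_le_len hf0
  have ha1 : 1 ≤ a.natAbs := Int.natAbs_pos.2 ha
  have he1 : 1 ≤ e.natAbs := Int.natAbs_pos.2 he
  obtain ⟨M, hM⟩ : ∃ M, M = a.natAbs * e.natAbs * len F * len f := ⟨_, rfl⟩
  have hMF : len F ≤ M := by
    rw [hM]
    calc len F ≤ a.natAbs * e.natAbs * len F := Nat.le_mul_of_pos_left _ (Nat.mul_pos ha1 he1)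
      _ ≤ _ := Nat.le_mul_of_pos_right _ hlf
  have hM1 : 1 ≤ M := hlF.trans hMF
  have hpos : 1 ≤ (C0 + C2) * M := Nat.mul_pos (by omega) hM1
  rw [← hM]
  rcases hC F.totalDegree F rfl hirr L π hker hsurj x y hxy with h1 | ⟨A0, hA0, -⟩
  · left
    have h2 : C1 F.totalDegree ≤ C2 := by
      rw [hC2]
      have := Finset.single_le_sum (f := C1) (fun _ _ => Nat.zero_le _)
        (Finset.mem_range.2 (show F.totalDegree < D + 1 by omega))
      omega
    have h3 : (C1 F.totalDegree * len F) ^ C1 F.totalDegree ≤ ((C0 + C2) * M) ^ (C0 + C2) :=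
      (Nat.pow_le_pow_left (Nat.mul_le_mul (by omega) hMF) _).trans
        (Nat.pow_le_pow_right hpos (by omega))
    exact (max_le h1.1 h1.2).trans h3
  · have hAA : A = A0 := (hA0 A).1 ⟨hQ, hA⟩
    obtain ⟨h1, h2⟩ := eval_dvd F f g h n a e hdvd hmem x y hxy
    rcases hmain F f a e (by omega) (by omega) hirr ha he L π hker hsurj A hQ hA t w ht hw hwf
      (fun d hd _ => hcov d hd) x y _ _ hxy h1 h2 with h3 | ⟨d, h3, h4, ι, η, h5, hfd, h6⟩
    · left
      rw [← hM] at h3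
      exact h3.trans ((Nat.pow_le_pow_left (Nat.mul_le_mul_right _ (Nat.le_add_right _ _)) _).trans
        (Nat.pow_le_pow_right hpos (Nat.le_add_right _ _)))
    · right
      refine ⟨fun A' => by rw [hAA]; exact hA0 A', d, h3, h4, ι, η, h5, hfd, ?_⟩
      rcases h6 with h6 | h6
      · left
        refine ⟨(le_finrank n ι _ h4 η ?_ _ ?_).trans h6, h6⟩
        · have hd0 : (d : ℝ) ≠ 0 := by
            have : d ≠ 0 := by
              rintro rfl
              exact pow_ne_zero _ (mul_ne_zero ha he) (zero_dvd_iff.1 h3)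
            exact_mod_cast this
          rw [map_div₀, map_intCast, ← h5]
          field_simp
        · apply IntermediateField.subset_adjoin
          right
          exact Set.mem_singleton _
      · right
        rw [← hM] at h6
        refine h6.trans ((Nat.pow_le_pow_left (Nat.mul_le_mul_right _ (Nat.le_add_left _ 1)) _).trans
          ?_)
        exact Nat.pow_le_pow_right (Nat.mul_pos (by omega) hM1) (Nat.le_add_right _ _)

lemma irr_root {κ : Type} [Field κ] (n : ℕ) (hn : 2 ≤ n) (γ : κ) :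
    ¬ Irreducible (X ^ n - C (γ ^ n)) := by
  intro h
  have h1 : (X ^ n - C (γ ^ n)).IsRoot γ := by
    rw [IsRoot.def, eval_sub, eval_pow, eval_X, eval_C, sub_self]
  have h2 : (X ^ n - C (γ ^ n)).natDegree = 1 :=
    natDegree_eq_of_degree_eq_some (degree_eq_one_of_irreducible_of_root h h1)
  rw [natDegree_X_pow_sub_C] at h2
  omega

/-- no irreducible binomial with a real root for `± γ ^ n` -/
lemma no_irr {κ : Type} [Field κ] (n : ℕ) (hn : 2 ≤ n) (γ w : κ) (hw : w ≠ 0)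
    (hγ : w = γ ^ n ∨ w = -γ ^ n) (h : Irreducible (X ^ n - C w)) (ι : κ →+* ℝ) (η : ℝ)
    (hη : η ^ n = ι w) : False := by
  rcases hγ with rfl | rfl
  · exact irr_root n hn γ h
  · rcases Nat.even_or_odd n with he | ho
    · have h1 : 0 ≤ η ^ n := he.pow_nonneg η
      have h2 : 0 ≤ (ι γ) ^ n := he.pow_nonneg _
      rw [hη, map_neg, map_pow] at h1
      have h3 : ι (γ ^ n) = 0 := by rw [map_pow]; linarith
      have h4 : γ ^ n = 0 := (map_eq_zero ι).1 h3
      exact hw (by rw [h4, neg_zero])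
    · rw [← ho.neg_pow] at h
      exact irr_root n hn _ h

theorem fin2 (n D : ℕ) (hn : 2 ≤ n) :
    ∃ C0 : ℕ,
      ∀ (F f g h : MvPolynomial (Fin 2) ℤ) (a e : ℤ), F.totalDegree ≤ D → f.totalDegree ≤ D →
      Irreducible (MvPolynomial.map (Int.castRingHom ℚ) F) → a.natAbs = 1 → e.natAbs = 1 →
      F ∣ f * g - MvPolynomial.C a * h ^ n →
      MvPolynomial.C e ∈ Ideal.span ({F, f, g, h} : Set (MvPolynomial (Fin 2) ℤ)) →
      ∀ (L : Type) [Field L] [Algebra ℚ L] (π : MvPolynomial (Fin 2) ℚ →ₐ[ℚ] L),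
      (∀ w, π w = 0 ↔ MvPolynomial.map (Int.castRingHom ℚ) F ∣ w) →
      (∀ z : L, ∃ w1 w2, π w2 ≠ 0 ∧ π w2 * z = π w1) →
      ∀ A : ValuationSubring L, (∀ q : ℚ, algebraMap ℚ L q ∈ A) →
      ¬ (π (MvPolynomial.X 0) ∈ A ∧ π (MvPolynomial.X 1) ∈ A) →
      ∀ (t : L) (w : A), IsUnit w →
      (w : L) = π (MvPolynomial.map (Int.castRingHom ℚ) f) * t ^ n →
      (∃ γ : IsLocalRing.ResidueField A, IsLocalRing.residue A w = γ ^ n ∨
        IsLocalRing.residue A w = -γ ^ n) →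
      Irreducible (X ^ n - C (π (MvPolynomial.map (Int.castRingHom ℚ) f))) →
      Irreducible (X ^ n + C (π (MvPolynomial.map (Int.castRingHom ℚ) f))) →
      ∀ x y : ℤ, MvPolynomial.eval ![x, y] F = 0 →
        max x.natAbs y.natAbs ≤ (C0 * (len F * len f)) ^ C0 := by
  obtain ⟨C0, c, hmain⟩ := fin n D (by omega)
  refine ⟨C0, ?_⟩
  intro F f g h a e hFD hfD hirr ha he hdvd hmem L _ _ π hker hsurj A hQ hA t w hw hwf hγ hirr1 hirr2
    x y hxy
  have ha0 : a ≠ 0 := by rintro rfl; simp at ha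
  have he0 : e ≠ 0 := by rintro rfl; simp at he
  have hd1 : ∀ d : ℤ, d ∣ (a * e) ^ (n - 1) → d = 1 ∨ d = -1 := by
    intro d hd
    have h1 := Int.natAbs_dvd_natAbs.2 hd
    rw [Int.natAbs_pow, Int.natAbs_mul, ha, he, mul_one, one_pow, Nat.dvd_one] at h1
    exact Int.natAbs_eq_iff.1 h1 |>.imp (by simp) (by simp)
  rcases hmain F f g h a e hFD hfD hirr ha0 he0 hdvd hmem L π hker hsurj A hQ hA t w hw hwf (by
    intro d hd
    rcases hd1 d hd with rfl | rfl
    · rw [Int.cast_one, div_one]; exact hirr1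
    · rw [Int.cast_neg, Int.cast_one, div_neg, div_one, C_neg, sub_neg_eq_add]; exact hirr2)
    x y hxy with h1 | ⟨-, d, hd, h1, ι, η, h2, -, -⟩
  · rw [ha, he, one_mul, one_mul] at h1
    exact h1
  · exfalso
    obtain ⟨γ, hγ⟩ := hγ
    have hw0 : IsLocalRing.residue A w ≠ 0 := by
      intro h0
      rw [IsLocalRing.residue_eq_zero_iff] at h0
      exact (IsLocalRing.mem_maximalIdeal _).1 h0 hw
    rcases hd1 d hd with rfl | rfl
    · rw [Int.cast_one, div_one] at h1
      rw [Int.cast_one, one_mul] at h2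
      exact no_irr n hn γ _ hw0 hγ h1 ι η h2
    · rw [Int.cast_neg, Int.cast_one, div_neg, div_one] at h1
      refine no_irr n hn γ _ (neg_ne_zero.2 hw0) ?_ h1 ι η ?_
      · rcases hγ with hγ | hγ
        · right; rw [hγ]
        · left; rw [hγ, neg_neg]
      · rw [map_neg, ← h2]
        push_cast; ring

end Pool.Agent.K1H93.TG
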