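import Pool.Agent.K1H93.TG.Red
import Pool.Agent.K1H93.TC.Desc

set_option autoImplicit false

/-! The bound for all plane curves. -/

open Polynomial IntermediateField

namespace Pool.Agent.K1H93.TG

open Pool.Agent.H322R2

lemma mem_of_monic_root {L : Type} [Field L] (A : ValuationSubring L) (α β : L) (G : ℤ[X][X])
    (hm : G.Monic) (h : ev α β G = 0) (hα : α ∈ A) : β ∈ A := by
  have h1 : IsIntegral A β := by
    refine ⟨G.map (evf (⟨α, hα⟩ : A)), hm.map _, ?_⟩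
    rw [eval₂_map, ← h, ev_apply]
    congr 1
    apply RingHom.ext
    intro p
    exact map_evf (algebraMap A L) ⟨α, hα⟩ p
  obtain ⟨z, hz⟩ := IsIntegrallyClosed.isIntegral_iff.1 h1
  rw [← hz]
  exact z.2

lemma eval₂_int (f : MvPolynomial (Fin 2) ℤ) (x y : ℤ) :
    MvPolynomial.eval₂ (Int.castRingHom ℤ) ![x, y] f = MvPolynomial.eval ![x, y] f := by
  rw [MvPolynomial.eval, MvPolynomial.coe_eval₂Hom]
  congr 1

lemma eval₂_pi {L : Type} [Field L] [Algebra ℚ L] (π : MvPolynomial (Fin 2) ℚ →ₐ[ℚ] L)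
    (f : MvPolynomial (Fin 2) ℤ) :
    MvPolynomial.eval₂ (Int.castRingHom L) ![π (MvPolynomial.X 0), π (MvPolynomial.X 1)] f =
      π (MvPolynomial.map (Int.castRingHom ℚ) f) := by
  have : MvPolynomial.eval₂Hom (Int.castRingHom L)
      ![π (MvPolynomial.X 0), π (MvPolynomial.X 1)] =
      (π : MvPolynomial (Fin 2) ℚ →+* L).comp (MvPolynomial.map (Int.castRingHom ℚ)) := by
    apply MvPolynomial.ringHom_ext
    · intro r
      simp
    · intro i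
      fin_cases i
      · simp
      · simp
  exact congrArg (fun g : MvPolynomial (Fin 2) ℤ →+* L => g f) this

/-- the real inequalities on the heights -/
lemma heights (n D : ℕ) (F f : MvPolynomial (Fin 2) ℤ) (hFD : F.totalDegree ≤ D)
    (hfD : f.totalDegree ≤ D) (u : ℕ) (hu : u ≤ F.totalDegree) (hc : lc F u ≠ 0)
    (hd1 : 1 ≤ F.totalDegree) (M P E : ℕ) (hP : P = (1 + D) ^ D)
    (hE : E = (n - 1) * (n - 1) + n * D + D + 1) (hM1 : 1 ≤ M) (hMF : len F ≤ M)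
    (hMf : len f ≤ M) (d : ℤ) (hdM : d.natAbs ≤ M ^ (n - 1)) :
    pn (pn zn) (GG F u) ≤ ((M * P) ^ D : ℕ) ∧
    pn (pn zn) (GG F u) ≤ ((M * P) ^ E : ℕ) ∧
    pn (pn zn) (fs u (lc F u) (n * D) D f) ≤ ((M * P) ^ E : ℕ) ∧
    pn (pn zn) (C (C (d ^ (n - 1))) * fs u (lc F u) (n * D) D f) ≤ ((M * P) ^ E : ℕ) := by
  have hP1 : 1 ≤ P := by rw [hP]; exact Nat.one_le_pow _ _ (by omega)
  have hMP1 : 1 ≤ M * P := Nat.mul_pos hM1 hP1
  have hMPR : (1 : ℝ) ≤ ((M * P : ℕ) : ℝ) := by exact_mod_cast hMP1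
  have hsh : ∀ g : MvPolynomial (Fin 2) ℤ, g.totalDegree ≤ D → len g ≤ M →
      pn (pn zn) (toB ℤ (shE ℤ (u : ℤ) g)) ≤ ((M * P : ℕ) : ℝ) := by
    intro g hg hgM
    refine (pn_toB_le u g).trans ?_
    have h1 : (len g : ℝ) * (1 + u) ^ g.totalDegree = ((len g * (1 + u) ^ g.totalDegree : ℕ) : ℝ) := by
      push_cast; ring
    rw [h1, Nat.cast_le]
    apply Nat.mul_le_mul hgM
    rw [hP]
    exact (Nat.pow_le_pow_left (by omega) _).trans (Nat.pow_le_pow_right (by omega) hg)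
  have hF2 : pn (pn zn) (F2 F u) ≤ ((M * P : ℕ) : ℝ) := hsh F hFD hMF
  have hl : |((lc F u : ℤ) : ℝ)| ≤ ((M * P : ℕ) : ℝ) := by
    refine le_trans ?_ hF2
    have h1 := coeff_le_pn (pn zn) (F2 F u) F.totalDegree
    rw [F2_coeff hc, pn_C] at h1
    exact h1
  have h1 : pn (pn zn) (GG F u) ≤ ((M * P : ℕ) : ℝ) ^ D :=
    (pn_GG hc hMPR hF2 hd1).trans (pow_le_pow_right₀ hMPR hFD)
  have h2 : pn (pn zn) (fs u (lc F u) (n * D) D f) ≤ ((M * P : ℕ) : ℝ) ^ (n * D + 1) := by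
    refine (pn_fs_le u _ hc (n * D) D f hfD).trans ?_
    rw [pow_succ]
    exact mul_le_mul (pow_le_pow_left₀ (abs_nonneg _) hl _) (hsh f hfD hMf)
      (apply_nonneg _ _) (by positivity)
  have h3 : pn (pn zn) (C (C (d ^ (n - 1))) * fs u (lc F u) (n * D) D f) ≤
      ((M * P : ℕ) : ℝ) ^ ((n - 1) * (n - 1) + (n * D + 1)) := by
    refine (map_mul_le_mul _ _ _).trans ?_
    rw [pn_C, pn_C, zn_apply, pow_add]
    apply mul_le_mul _ h2 (apply_nonneg _ _) (by positivity)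
    have e1 : |((d ^ (n - 1) : ℤ) : ℝ)| = ((d.natAbs ^ (n - 1) : ℕ) : ℝ) := by
      rw [Int.cast_pow, abs_pow, Nat.cast_pow, Nat.cast_natAbs, Int.cast_abs]
    rw [e1, ← Nat.cast_pow, Nat.cast_le]
    calc d.natAbs ^ (n - 1) ≤ (M ^ (n - 1)) ^ (n - 1) := Nat.pow_le_pow_left hdM _
      _ = M ^ ((n - 1) * (n - 1)) := by rw [← pow_mul]
      _ ≤ (M * P) ^ ((n - 1) * (n - 1)) :=
        Nat.pow_le_pow_left (Nat.le_mul_of_pos_right _ (by omega)) _
  refine ⟨?_, ?_, ?_, ?_⟩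
  · rw [Nat.cast_pow]; exact h1
  · rw [Nat.cast_pow]
    exact h1.trans (pow_le_pow_right₀ hMPR (by rw [hE]; omega))
  · rw [Nat.cast_pow]
    exact h2.trans (pow_le_pow_right₀ hMPR (by rw [hE]; omega))
  · rw [Nat.cast_pow]
    exact h3.trans (pow_le_pow_right₀ hMPR (by rw [hE]; omega))

/-- from a bound for `a = y - u x` to a bound for `x`, `y` -/
lemma back (D : ℕ) (hD : 1 ≤ D) (F : MvPolynomial (Fin 2) ℤ) (hFD : F.totalDegree ≤ D) (u : ℕ)
    (hu : u ≤ F.totalDegree) (hc : lc F u ≠ 0) (hd1 : 1 ≤ F.totalDegree) (M P E C1 k : ℕ)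
    (hP : P = (1 + D) ^ D) (hM1 : 1 ≤ M) (hE : 1 ≤ E) (hk : 1 ≤ k)
    (hGG : pn (pn zn) (GG F u) ≤ ((M * P) ^ D : ℕ)) (x y : ℤ)
    (hxy : MvPolynomial.eval ![x, y] F = 0)
    (h : (y - u * x).natAbs ≤ (k * (M * P) ^ E) ^ C1) :
    max x.natAbs y.natAbs ≤ (k * P * M) ^ (1 + D + E * C1) := by
  have hP1 : 1 ≤ P := by rw [hP]; exact Nat.one_le_pow _ _ (by omega)
  have hMP1 : 1 ≤ M * P := Nat.mul_pos hM1 hP1
  obtain ⟨W, hW⟩ : ∃ W, W = (k * (M * P) ^ E) ^ C1 := ⟨_, rfl⟩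
  have hW1 : 1 ≤ W := by
    rw [hW]; exact Nat.one_le_pow _ _ (Nat.mul_pos hk (Nat.pow_pos hMP1))
  rw [← hW] at h
  have hzero : ev (y - u * x) (lc F u * x) (GG F u) = 0 := by
    have h1 := ev_f2 (S := ℤ) u F x y
    rw [eval₂_int, hxy] at h1
    have h2 : ev (y - u * x) x (F2 F u) = 0 := h1
    rw [ev_GG hc hd1, h2, mul_zero]
  have hTR : (1 : ℝ) ≤ (((M * P) ^ D : ℕ) : ℝ) := by exact_mod_cast Nat.one_le_pow _ _ hMP1
  have hbb := abs_b_le (GG_monic hc) (GG_natDegree hc) (GG_TD hc) hTR hGG (y - u * x) (lc F u * x)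
    hzero
  have hlc1 : 1 ≤ (lc F u).natAbs := Int.natAbs_pos.2 hc
  have haR : |((y - u * x : ℤ) : ℝ)| ≤ (W : ℝ) := by
    have : (((y - u * x).natAbs : ℕ) : ℝ) ≤ W := by exact_mod_cast h
    rwa [Nat.cast_natAbs, Int.cast_abs] at this
  have hmax : max 1 |((y - u * x : ℤ) : ℝ)| ≤ (W : ℝ) := max_le (by exact_mod_cast hW1) haR
  have hx : x.natAbs ≤ (M * P) ^ D * W := by
    have h1 : ((x.natAbs : ℕ) : ℝ) ≤ (((M * P) ^ D * W : ℕ) : ℝ) := by
      rw [Nat.cast_mul]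
      calc ((x.natAbs : ℕ) : ℝ) ≤ (((lc F u * x).natAbs : ℕ) : ℝ) := by
            rw [Int.natAbs_mul]
            exact_mod_cast Nat.le_mul_of_pos_left _ hlc1
        _ = |((lc F u * x : ℤ) : ℝ)| := by rw [Nat.cast_natAbs, Int.cast_abs]
        _ ≤ _ := hbb.trans (mul_le_mul_of_nonneg_left hmax (by positivity))
    exact_mod_cast h1
  have hy : y.natAbs ≤ (1 + D) * ((M * P) ^ D * W) := by
    have h1 : y = (y - u * x) + u * x := by ring
    have h2 : y.natAbs ≤ (y - u * x).natAbs + u * x.natAbs := by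
      conv_lhs => rw [h1]
      refine (Int.natAbs_add_le _ _).trans ?_
      rw [Int.natAbs_mul, Int.natAbs_natCast]
    have h3 : u * x.natAbs ≤ D * ((M * P) ^ D * W) := Nat.mul_le_mul (by omega) hx
    have h4 : W ≤ (M * P) ^ D * W := Nat.le_mul_of_pos_left _ (Nat.pow_pos hMP1)
    calc y.natAbs ≤ W + D * ((M * P) ^ D * W) := by omega
      _ ≤ (M * P) ^ D * W + D * ((M * P) ^ D * W) := by omega
      _ = _ := by ring
  have hx' : x.natAbs ≤ (1 + D) * ((M * P) ^ D * W) :=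
    hx.trans (Nat.le_mul_of_pos_left _ (by omega))
  refine (max_le hx' hy).trans ?_
  have e0 : k * P * M = k * (M * P) := by ring
  have hDP : 1 + D ≤ k * (M * P) := by
    calc 1 + D ≤ P := by rw [hP]; exact Nat.le_self_pow (by omega) _
      _ ≤ M * P := Nat.le_mul_of_pos_left _ hM1
      _ ≤ k * (M * P) := Nat.le_mul_of_pos_left _ hk
  have hWle : W ≤ (k * (M * P)) ^ (E * C1) := by
    rw [hW, pow_mul]
    apply Nat.pow_le_pow_left
    rw [mul_pow k]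
    exact Nat.mul_le_mul_right _ (Nat.le_self_pow (Nat.one_le_iff_ne_zero.1 hE) _)
  rw [e0, pow_add, pow_add, pow_one, mul_assoc]
  apply Nat.mul_le_mul hDP
  apply Nat.mul_le_mul _ hWle
  exact Nat.pow_le_pow_left (Nat.le_mul_of_pos_left _ hk) _

end Pool.Agent.K1H93.TG
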