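import Mathlib

set_option autoImplicit false

/-! Places of a radical extension above a given place. -/

open Polynomial IntermediateField

namespace Pool.Agent.K1H93.TG

variable {L E : Type} [Field L] [Field E] [Algebra L E]

/-- evaluation of polynomials over `A` at `θ` -/
noncomputable def Psi (A : ValuationSubring L) (θ : E) : A[X] →+* E :=
  eval₂RingHom ((algebraMap L E).comp A.subtype) θ

lemma Psi_C (A : ValuationSubring L) (θ : E) (z : A) : Psi A θ (C z) = algebraMap L E (z : L) := by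
  rw [Psi, coe_eval₂RingHom, eval₂_C]; rfl

lemma Psi_X (A : ValuationSubring L) (θ : E) : Psi A θ X = θ := by
  rw [Psi, coe_eval₂RingHom, eval₂_X]

lemma Psi_eq (A : ValuationSubring L) (θ : E) (W : A[X]) :
    Psi A θ W = aeval θ (W.map A.subtype) := by
  rw [Psi, coe_eval₂RingHom, aeval_def, eval₂_map]

/-- a place above `A` for every factor of the reduction of `X ^ n - u` -/
theorem place_over (A : ValuationSubring L) (n : ℕ) (hn : 1 ≤ n) (u : A) (θ : E)
    (hker : ∀ p : L[X], aeval θ p = 0 → X ^ n - C (u : L) ∣ p)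
    (φ : (IsLocalRing.ResidueField A)[X]) (hφ : φ ∣ X ^ n - C (IsLocalRing.residue A u))
    (hφu : ¬ IsUnit φ) :
    ∃ A1 : ValuationSubring E, (∀ z : A, algebraMap L E (z : L) ∈ A1) ∧ θ ∈ A1 ∧
      ∀ W : A[X], φ ∣ W.map (IsLocalRing.residue A) → Psi A θ W ∈ A1.nonunits := by
  obtain ⟨J, hJ⟩ : ∃ J : Ideal A[X], ∀ W, W ∈ J ↔ φ ∣ W.map (IsLocalRing.residue A) :=
    ⟨Ideal.comap (mapRingHom (IsLocalRing.residue A)) (Ideal.span {φ}), fun W => by
      rw [Ideal.mem_comap, Ideal.mem_span_singleton]; rfl⟩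
  have hkerJ : ∀ W, Psi A θ W = 0 → W ∈ J := by
    intro W hW
    rw [hJ]
    rw [Psi_eq] at hW
    have h1 := hker _ hW
    have h2 : (X ^ n - C u : A[X]).map A.subtype = X ^ n - C (u : L) := by
      rw [Polynomial.map_sub, Polynomial.map_pow, map_X, map_C]; rfl
    rw [← h2] at h1
    have h3 : (X ^ n - C u : A[X]) ∣ W :=
      (map_dvd_map _ (Subtype.val_injective) (monic_X_pow_sub_C u (by omega))).1 h1
    have h4 : (X ^ n - C u : A[X]).map (IsLocalRing.residue A) ∣ W.map (IsLocalRing.residue A) :=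
      Polynomial.map_dvd _ h3
    rw [Polynomial.map_sub, Polynomial.map_pow, map_X, map_C] at h4
    exact hφ.trans h4
  have hJ1 : (1 : A[X]) ∉ J := by
    rw [hJ, Polynomial.map_one]
    intro h
    exact hφu (isUnit_of_dvd_one h)
  have hI : Ideal.map (Psi A θ).rangeRestrict J ≠ ⊤ := by
    intro htop
    rw [Ideal.eq_top_iff_one, Ideal.mem_map_iff_of_surjective _ (Psi A θ).rangeRestrict_surjective]
      at htop
    obtain ⟨W, hW, hW1⟩ := htop
    have h1 : Psi A θ W = 1 := congrArg Subtype.val hW1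
    have h2 : Psi A θ (W - 1) = 0 := by rw [map_sub, h1, map_one, sub_self]
    apply hJ1
    have h3 := J.sub_mem hW (hkerJ _ h2)
    rwa [sub_sub_cancel] at h3
  obtain ⟨A1, h1, h2⟩ := Ideal.image_subset_nonunits_valuationSubring _ hI
  refine ⟨A1, ?_, ?_, ?_⟩
  · intro z
    apply h1
    exact ⟨C z, Psi_C A θ z⟩
  · apply h1
    exact ⟨X, Psi_X A θ⟩
  · intro W hW
    apply h2
    exact ⟨(Psi A θ).rangeRestrict W, Ideal.mem_map_of_mem _ ((hJ W).2 hW), rfl⟩

lemma nonunit_of_max (A : ValuationSubring L) (A1 : ValuationSubring E) (θ : E)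
    (φ : (IsLocalRing.ResidueField A)[X])
    (h : ∀ W : A[X], φ ∣ W.map (IsLocalRing.residue A) → Psi A θ W ∈ A1.nonunits) (z : L)
    (hz : z ∈ A.nonunits) : algebraMap L E z ∈ A1.nonunits := by
  obtain ⟨hzA, hz2⟩ := ValuationSubring.mem_nonunits_iff_exists_mem_maximalIdeal.1 hz
  have h1 := h (C ⟨z, hzA⟩) (by
    rw [map_C]
    have : IsLocalRing.residue A ⟨z, hzA⟩ = 0 := (IsLocalRing.residue_eq_zero_iff _).2 hz2
    rw [this, C_0]
    exact dvd_zero _)
  rw [Psi_C] at h1
  exact h1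

lemma notMem_of_notMem (A : ValuationSubring L) (A1 : ValuationSubring E) (θ : E)
    (φ : (IsLocalRing.ResidueField A)[X])
    (h : ∀ W : A[X], φ ∣ W.map (IsLocalRing.residue A) → Psi A θ W ∈ A1.nonunits) (z : L)
    (hz : z ∉ A) : algebraMap L E z ∉ A1 := by
  have h1 := nonunit_of_max A A1 θ φ h z⁻¹ (A.inv_mem_nonunits_iff.2 (Or.inr hz))
  rw [map_inv₀, A1.inv_mem_nonunits_iff] at h1
  rcases h1 with h1 | h1
  · exfalso
    rw [(map_eq_zero _).1 h1] at hz
    exact hz A.zero_mem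
  · exact h1

/-- a reducible reduction gives two places -/
theorem two_places (A : ValuationSubring L) (n : ℕ) (hn : 1 ≤ n) (u : A) (θ : E)
    (hker : ∀ p : L[X], aeval θ p = 0 → X ^ n - C (u : L) ∣ p) (x : L) (hx : x ∉ A)
    (φ ψ : (IsLocalRing.ResidueField A)[X]) (hφψ : φ * ψ = X ^ n - C (IsLocalRing.residue A u))
    (hφu : ¬ IsUnit φ) (hψu : ¬ IsUnit ψ) (hco : IsCoprime φ ψ)
    (A' : ValuationSubring E) (hA' : ∀ A1 : ValuationSubring E,
      (∀ z : A, algebraMap L E (z : L) ∈ A1) → algebraMap L E x ∉ A1 → A1 = A') : False := by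
  obtain ⟨A1, h11, h12, h13⟩ := place_over A n hn u θ hker φ (hφψ ▸ dvd_mul_right _ _) hφu
  obtain ⟨A2, h21, h22, h23⟩ := place_over A n hn u θ hker ψ (hφψ ▸ dvd_mul_left _ _) hψu
  obtain rfl := hA' A1 h11 (notMem_of_notMem A A1 θ φ h13 x hx)
  obtain rfl := hA' A2 h21 (notMem_of_notMem A A2 θ ψ h23 x hx)
  obtain ⟨a, b, hab⟩ := hco
  obtain ⟨W, hW⟩ := Polynomial.map_surjective (IsLocalRing.residue A)
    IsLocalRing.residue_surjective (a * φ)
  have h1 := h13 W (by rw [hW]; exact dvd_mul_left _ _)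
  have h2 := h23 (1 - W) (by
    rw [Polynomial.map_sub, Polynomial.map_one, hW, ← hab, add_sub_cancel_left]
    exact dvd_mul_left _ _)
  rw [map_sub, map_one] at h2
  have h3 := add_mem h1 h2
  rw [add_sub_cancel] at h3
  rw [ValuationSubring.mem_nonunits_iff, map_one] at h3
  exact lt_irrefl _ h3

end Pool.Agent.K1H93.TG
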