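import Mathlib

set_option autoImplicit false

/-! A primitive element `σ + c y` with a small natural number `c`. -/

open Polynomial IntermediateField

namespace Pool.Agent.K1H93.TG

/-- a small primitive element -/
lemma exists_prim (K E : Type) [Field K] [Field E] [CharZero K] [Algebra K E] [FiniteDimensional K E]
    (y σ : E) (hgen : K⟮y, σ⟯ = ⊤) :
    ∃ c : ℕ, c ≤ Module.finrank K E ∧ K⟮σ + (c : E) * y⟯ = ⊤ := by
  classical
  have : CharZero E := charZero_of_injective_algebraMap (algebraMap K E).injective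
  obtain ⟨Ω, _, _, _⟩ : ∃ (Ω : Type) (_ : Field Ω) (_ : Algebra K Ω), IsAlgClosed Ω :=
    ⟨AlgebraicClosure K, inferInstance, inferInstance, inferInstance⟩
  have hΩ : CharZero Ω := charZero_of_injective_algebraMap (algebraMap K Ω).injective
  have hcard : Fintype.card (E →ₐ[K] Ω) = Module.finrank K E := AlgHom.card K E Ω
  have hne : Nonempty (E →ₐ[K] Ω) := by
    rw [← Fintype.card_pos_iff, hcard]
    exact Module.finrank_pos
  obtain ⟨φ⟩ := hne
  by_contra hcon
  push Not at hcon
  have hsplit : ∀ x : E, ((minpoly K x).map (algebraMap K Ω)).Splits := fun x =>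
    IsAlgClosed.splits _
  have h1 : ∀ c : Fin (Module.finrank K E + 1), ∃ ψ : E →ₐ[K] Ω,
      φ (σ + (c : ℕ) * y) = ψ (σ + (c : ℕ) * y) ∧ φ ≠ ψ := by
    intro c
    have h2 := hcon c (Nat.lt_succ_iff.1 c.2)
    rw [Ne, Field.primitive_element_iff_algHom_eq_of_eval K Ω hsplit _ φ] at h2
    push Not at h2
    exact h2
  choose ψ hψ hψ2 using h1
  obtain ⟨c, c', hcc, hψc⟩ := Fintype.exists_ne_map_eq_of_card_lt ψ (by
    rw [hcard, Fintype.card_fin]; omega)
  have h3 := hψ c
  have h4 := hψ c'
  rw [← hψc] at h4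
  rw [map_add, map_mul, map_natCast, map_add, map_mul, map_natCast] at h3 h4
  have h5 : (((c : ℕ) : Ω) - ((c' : ℕ) : Ω)) * (φ y - ψ c y) = 0 := by linear_combination h3 - h4
  have h6 : ((c : ℕ) : Ω) - ((c' : ℕ) : Ω) ≠ 0 := by
    rw [sub_ne_zero]
    intro h7
    exact hcc (Fin.ext (Nat.cast_injective h7))
  have h7 : φ y = ψ c y := by
    rcases mul_eq_zero.1 h5 with h | h
    · exact absurd h h6
    · exact sub_eq_zero.1 h
  have h8 : φ σ = ψ c σ := by
    rw [h7] at h3
    exact add_right_cancel h3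
  apply hψ2 c
  have h9 : ∀ z ∈ K⟮y, σ⟯, φ z = ψ c z := by
    intro z hz
    induction hz using IntermediateField.adjoin_induction with
    | mem x hx =>
      rcases hx with rfl | hx
      · exact h7
      · rw [Set.mem_singleton_iff.1 hx]; exact h8
    | algebraMap x => rw [AlgHom.commutes, AlgHom.commutes]
    | add x y _ _ hx hy => rw [map_add, map_add, hx, hy]
    | inv x _ hx => rw [map_inv₀, map_inv₀, hx]
    | mul x y _ _ hx hy => rw [map_mul, map_mul, hx, hy]
  ext z
  exact h9 z (hgen ▸ IntermediateField.mem_top)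

end Pool.Agent.K1H93.TG
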