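import Pool.Agent.K1H93.TG.Core

set_option autoImplicit false

/-! The function `f` in the coordinates of the monic model. -/

open Polynomial

namespace Pool.Agent.K1H93.TG

open Pool.Agent.H322R2

/-- `f` sheared -/
noncomputable def f2 (u : ℕ) (f : MvPolynomial (Fin 2) ℤ) : ℤ[X][X] := toB ℤ (shE ℤ (u : ℤ) f)

/-- `l ^ N f` in the coordinates `a = y - u x`, `b = l x` -/
noncomputable def fs (u : ℕ) (l : ℤ) (N K : ℕ) (f : MvPolynomial (Fin 2) ℤ) : ℤ[X][X] :=
  ∑ j ∈ Finset.range (K + 1), monomial j (C (l ^ (N - j)) * (f2 u f).coeff j)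

lemma f2_natDegree (u : ℕ) (f : MvPolynomial (Fin 2) ℤ) : (f2 u f).natDegree ≤ f.totalDegree :=
  (TD_toB (u : ℤ) f).1

lemma f2_coeff (u : ℕ) (f : MvPolynomial (Fin 2) ℤ) (j : ℕ) :
    ((f2 u f).coeff j).natDegree ≤ f.totalDegree :=
  ((TD_toB (u : ℤ) f).2 j).trans (Nat.sub_le _ _)

lemma ev_f2 {S : Type} [CommRing S] (u : ℕ) (f : MvPolynomial (Fin 2) ℤ) (x y : S) :
    ev (y - u * x) x (f2 u f) = MvPolynomial.eval₂ (Int.castRingHom S) ![x, y] f := by
  rw [f2, ev_toB]
  have : (MvPolynomial.eval₂Hom (Int.castRingHom S) ![x, y - u * x]).comp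
      (shE ℤ (u : ℤ) : MvPolynomial (Fin 2) ℤ →+* MvPolynomial (Fin 2) ℤ)
      = MvPolynomial.eval₂Hom (Int.castRingHom S) ![x, y] := by
    apply MvPolynomial.ringHom_ext
    · intro r
      simp [shE_apply]
    · intro i
      fin_cases i
      · simp [shE_apply]
      · simp [shE_apply]
  exact congrArg (fun g : MvPolynomial (Fin 2) ℤ →+* S => g f) this

lemma ev_fs {S : Type} [CommRing S] (u : ℕ) (l : ℤ) (N K : ℕ) (f : MvPolynomial (Fin 2) ℤ)
    (hK : f.totalDegree ≤ K) (hN : K ≤ N) (x y : S) :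
    ev (y - u * x) ((l : S) * x) (fs u l N K f) =
      (l : S) ^ N * MvPolynomial.eval₂ (Int.castRingHom S) ![x, y] f := by
  rw [← ev_f2 u f, fs, map_sum]
  have h1 : ev (y - u * x) x (f2 u f) = ∑ j ∈ Finset.range (K + 1),
      evf (y - u * x) ((f2 u f).coeff j) * x ^ j := by
    rw [ev_apply, eval₂_eq_sum_range' _ (lt_of_le_of_lt ((f2_natDegree u f).trans hK)
      (Nat.lt_succ_self K))]
  rw [h1, Finset.mul_sum]
  apply Finset.sum_congr rfl
  intro j hj
  rw [Finset.mem_range] at hj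
  rw [ev_apply, eval₂_monomial, map_mul, evf_C, mul_pow]
  have h2 : (l : S) ^ N = l ^ (N - j) * l ^ j := by
    rw [← pow_add]; congr 1; omega
  rw [h2]; push_cast; ring

lemma fs_natDegree (u : ℕ) (l : ℤ) (N K : ℕ) (f : MvPolynomial (Fin 2) ℤ) :
    (fs u l N K f).natDegree ≤ K := by
  rw [fs]
  apply natDegree_sum_le_of_forall_le
  intro j hj
  rw [Finset.mem_range] at hj
  exact (natDegree_monomial_le _).trans (by omega)

lemma fs_ID (u : ℕ) (l : ℤ) (N K : ℕ) (f : MvPolynomial (Fin 2) ℤ) (hK : f.totalDegree ≤ K) :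
    ID K (fs u l N K f) := by
  rw [fs]
  apply ID_sum
  intro j _ i
  rw [coeff_monomial]
  split_ifs
  · exact (natDegree_C_mul_le _ _).trans ((f2_coeff u f j).trans hK)
  · simp

lemma pn_fs_le (u : ℕ) (l : ℤ) (hl : l ≠ 0) (N K : ℕ) (f : MvPolynomial (Fin 2) ℤ)
    (hK : f.totalDegree ≤ K) :
    pn (pn zn) (fs u l N K f) ≤ |(l : ℝ)| ^ N * pn (pn zn) (f2 u f) := by
  have hl1 : 1 ≤ |(l : ℝ)| := by
    have : 1 ≤ |l| := Int.one_le_abs hl
    exact_mod_cast this
  rw [fs]
  refine (seminorm_sum_le _ _ _).trans ?_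
  rw [pn_eq_range _ (f2 u f) (lt_of_le_of_lt ((f2_natDegree u f).trans hK) (Nat.lt_succ_self K)),
    Finset.mul_sum]
  apply Finset.sum_le_sum
  intro j _
  rw [pn_monomial]
  refine (map_mul_le_mul _ _ _).trans ?_
  rw [pn_C, zn_apply, Int.cast_pow, abs_pow]
  exact mul_le_mul_of_nonneg_right (pow_le_pow_right₀ hl1 (Nat.sub_le _ _)) (apply_nonneg _ _)

lemma GG_irr (F : MvPolynomial (Fin 2) ℤ) (u : ℕ) (hc : lc F u ≠ 0) (hd : 1 ≤ F.totalDegree)
    (hirr : Irreducible (MvPolynomial.map (Int.castRingHom ℚ) F)) :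
    Irreducible ((GG F u).map iq) := by
  have hinj : Function.Injective (mapRingHom (Int.castRingHom ℚ)) :=
    Polynomial.map_injective _ (RingHom.injective_int _)
  have h1 : Irreducible ((F2 F u).map (mapRingHom (Int.castRingHom ℚ))) := by
    rw [F2, ← toB_map, ← shE_map]
    exact (MulEquiv.irreducible_iff (toB ℚ)).2 ((MulEquiv.irreducible_iff (shE ℚ _)).2 hirr)
  have hlc : ((F2 F u).map (mapRingHom (Int.castRingHom ℚ))).leadingCoeff
      = C ((lc F u : ℤ) : ℚ) := by
    rw [leadingCoeff_map_of_injective hinj, F2_leadingCoeff hc]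
    simp
  have h2 : Irreducible (integralNormalization
      ((F2 F u).map (mapRingHom (Int.castRingHom ℚ)))) := by
    apply irreducible_iN _ _ _ h1
    · rw [natDegree_map_eq_of_injective hinj, F2_natDegree hc]; exact hd
    · rw [hlc]
      apply IsUnit.map
      exact isUnit_iff_ne_zero.2 (by exact_mod_cast hc)
  rw [integralNormalization_map] at h2
  · exact h2
  · rw [F2_leadingCoeff hc]
    simpa using hc

/-- an integral root is bounded by the length -/
lemma root_le (ρ : ℤ[X]) (h0 : ρ ≠ 0) (a : ℤ) (ha : evf a ρ = 0) : |(a : ℝ)| ≤ pn zn ρ := by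
  have hev : ρ.eval a = 0 := by
    rw [evf, coe_eval₂RingHom] at ha
    rw [← ha, eval]
    congr 1
  obtain ⟨k, hk⟩ : ∃ k, k = ρ.natTrailingDegree := ⟨_, rfl⟩
  have htc : ρ.coeff k ≠ 0 := by
    rw [hk]
    exact trailingCoeff_nonzero_iff_nonzero.2 h0
  have hlow : ∀ i < k, ρ.coeff i = 0 := fun i hi => coeff_eq_zero_of_lt_natTrailingDegree (hk ▸ hi)
  have hle : |((ρ.coeff k : ℤ) : ℝ)| ≤ pn zn ρ := coeff_le_pn zn ρ k
  rcases eq_or_ne a 0 with rfl | ha0
  · simp
  have hdvd : a ∣ ρ.coeff k := by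
    have h1 : ρ.eval a = a ^ k * (ρ.coeff k + a * ∑ i ∈ Finset.range (ρ.natDegree + 1),
        (if k < i then ρ.coeff i * a ^ (i - k - 1) else 0)) := by
      rw [eval_eq_sum_range, mul_add, Finset.mul_sum, Finset.mul_sum]
      have hkr : k ∈ Finset.range (ρ.natDegree + 1) := by
        rw [Finset.mem_range, hk]
        have := natTrailingDegree_le_natDegree ρ
        omega
      rw [← Finset.add_sum_erase _ _ hkr, mul_comm (ρ.coeff k)]
      congr 1
      rw [← Finset.add_sum_erase _ _ hkr, if_neg (lt_irrefl k), mul_zero, mul_zero, zero_add]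
      apply Finset.sum_congr rfl
      intro i hi
      rw [Finset.mem_erase] at hi
      by_cases hik : k < i
      · rw [if_pos hik]
        have : a ^ i = a ^ k * (a * a ^ (i - k - 1)) := by
          rw [← pow_succ', ← pow_add]; congr 1; omega
        rw [this]; ring
      · rw [if_neg hik, hlow i (by omega)]; ring
    rw [hev] at h1
    have h2 := (mul_eq_zero.1 h1.symm).resolve_left (pow_ne_zero _ ha0)
    rw [add_eq_zero_iff_eq_neg] at h2
    rw [h2, dvd_neg]
    exact dvd_mul_right _ _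
  have h3 : |a| ≤ |ρ.coeff k| := by
    have := Int.le_of_dvd (abs_pos.2 htc) ((abs_dvd_abs _ _).2 hdvd)
    exact this
  have h4 : |(a : ℝ)| ≤ |((ρ.coeff k : ℤ) : ℝ)| := by exact_mod_cast h3
  exact h4.trans hle

end Pool.Agent.K1H93.TG
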